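import Mathlib

set_option autoImplicit false

namespace Pool.Agent.Work.MP_64e6b8_an

open Filter Topology

variable {B : Type*} [NonUnitalCStarAlgebra B]

lemma abs_le_norm_of_mem_quasispectrum {b : B} (hb : IsSelfAdjoint b) {t : ℝ}
    (ht : t ∈ quasispectrum ℝ b) : |t| ≤ ‖b‖ := by
  have h := norm_apply_le_norm_cfcₙ (fun x : ℝ => x) b ht (by fun_prop) rfl hb
  rwa [cfcₙ_id' ℝ b hb] at h

/-- perturbation along the triple cube -/
lemma norm_pert {v : B} (hv : ‖v‖ ≤ 1) {c : ℝ} (hc : |c| ≤ 1 / 2) :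
    ‖v + c • (v - v * star v * v)‖ ≤ 1 := by
  let _ : PartialOrder B := CStarAlgebra.spectralOrder B
  have _ : StarOrderedRing B := CStarAlgebra.spectralOrderedRing B
  set b : B := star v * v with hb
  have hb0 : 0 ≤ b := star_mul_self_nonneg v
  have hbsa : IsSelfAdjoint b := hb0.isSelfAdjoint
  have hbs : star b = b := hbsa
  have hb1 : ‖b‖ ≤ 1 := by
    rw [hb, CStarRing.norm_star_mul_self]
    nlinarith [norm_nonneg v]
  set w : B := v + c • (v - v * star v * v) with hw
  have c0 : ContinuousOn (fun t : ℝ => t) (quasispectrum ℝ b) := continuous_id.continuousOn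
  have c1 : ContinuousOn (fun t : ℝ => t * t) (quasispectrum ℝ b) := c0.mul c0
  have c2 : ContinuousOn (fun t : ℝ => t * t * t) (quasispectrum ℝ b) := c1.mul c0
  have e1 : cfcₙ (fun t : ℝ => (1 + c) ^ 2 * t - (2 * c * (1 + c)) * (t * t)
      + c ^ 2 * (t * t * t)) b
      = (1 + c) ^ 2 • b - (2 * c * (1 + c)) • (b * b) + c ^ 2 • (b * b * b) := by
    rw [cfcₙ_add (fun t : ℝ => (1 + c) ^ 2 * t - (2 * c * (1 + c)) * (t * t))
        (fun t : ℝ => c ^ 2 * (t * t * t)) b (by fun_prop) (by simp) (by fun_prop) (by simp),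
      cfcₙ_sub (fun t : ℝ => (1 + c) ^ 2 * t) (fun t : ℝ => (2 * c * (1 + c)) * (t * t)) b
        (by fun_prop) (by simp) (by fun_prop) (by simp),
      cfcₙ_const_mul _ (fun t : ℝ => t) b c0, cfcₙ_const_mul _ (fun t : ℝ => t * t) b c1,
      cfcₙ_const_mul _ (fun t : ℝ => t * t * t) b c2,
      cfcₙ_mul (fun t : ℝ => t * t) (fun t : ℝ => t) b c1 (by simp) c0 rfl,
      cfcₙ_mul (fun t : ℝ => t) (fun t : ℝ => t) b c0 rfl c0 rfl, cfcₙ_id' ℝ b]
  have e2 : star w * w
      = (1 + c) ^ 2 • b - (2 * c * (1 + c)) • (b * b) + c ^ 2 • (b * b * b) := by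
    have hw' : w = (1 + c) • v - c • (v * b) := by
      rw [hw, hb, ← mul_assoc, add_smul, one_smul, smul_sub]; abel
    have hws : star w = (1 + c) • star v - c • (b * star v) := by
      rw [hw', star_sub, star_smul, star_smul, star_mul, hbs]; simp
    rw [hws, hw']
    simp only [sub_mul, mul_sub, smul_mul_assoc, mul_smul_comm]
    have h1 : star v * v = b := rfl
    have h2 : star v * (v * b) = b * b := by rw [← mul_assoc]
    have h3 : b * star v * v = b * b := by rw [mul_assoc]
    have h4 : b * star v * (v * b) = b * b * b := by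
      rw [mul_assoc b, h2, ← mul_assoc]
    rw [h1, h2, h3, h4]
    module
  have h3 : ‖star w * w‖ ≤ 1 := by
    rw [e2, ← e1]
    refine norm_cfcₙ_le (fun t ht => ?_)
    have ht0 : 0 ≤ t := quasispectrum_nonneg_of_nonneg b hb0 t ht
    have ht1 : t ≤ 1 := by
      have := abs_le_norm_of_mem_quasispectrum hbsa ht
      rw [abs_of_nonneg ht0] at this
      linarith
    have e3 : (1 + c) ^ 2 * t - (2 * c * (1 + c)) * (t * t) + c ^ 2 * (t * t * t)
        = t * (1 + c * (1 - t)) ^ 2 := by ring
    rw [e3, Real.norm_of_nonneg (by positivity)]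
    have hc1 := (abs_le.mp hc).1
    have hc2 := (abs_le.mp hc).2
    have h4 : 0 ≤ 1 + c * (1 - t) := by nlinarith
    have h5 : 1 + c * (1 - t) ≤ 1 + 1 / 2 * (1 - t) := by nlinarith
    have h6 : (1 + c * (1 - t)) ^ 2 ≤ (1 + 1 / 2 * (1 - t)) ^ 2 := by gcongr
    have h7 : t * (1 + 1 / 2 * (1 - t)) ^ 2 ≤ 1 := by
      have hu : 0 ≤ 1 - t := by linarith
      have : t * (1 + 1 / 2 * (1 - t)) ^ 2 = 1 - 3 / 4 * (1 - t) ^ 2 - 1 / 4 * (1 - t) ^ 3 := by
        ring
      rw [this]
      have := pow_nonneg hu 2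
      have := pow_nonneg hu 3
      linarith
    nlinarith
  rw [CStarRing.norm_star_mul_self] at h3
  nlinarith [norm_nonneg w]

lemma norm_add_sq_le_of_star_mul {x z : B} (h : star x * z = 0) :
    ‖x + z‖ ^ 2 ≤ ‖x‖ ^ 2 + ‖z‖ ^ 2 := by
  have h' : star z * x = 0 := by
    have := congrArg star h
    simpa using this
  have : star (x + z) * (x + z) = star x * x + star z * z := by
    rw [star_add, add_mul, mul_add, mul_add, h, h']; abel
  calc ‖x + z‖ ^ 2 = ‖star (x + z) * (x + z)‖ := by rw [CStarRing.norm_star_mul_self, pow_two]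
    _ ≤ ‖star x * x‖ + ‖star z * z‖ := by rw [this]; exact norm_add_le _ _
    _ = ‖x‖ ^ 2 + ‖z‖ ^ 2 := by
        rw [CStarRing.norm_star_mul_self, CStarRing.norm_star_mul_self, pow_two, pow_two]

lemma norm_add_sq_le_of_mul_star {x z : B} (h : x * star z = 0) :
    ‖x + z‖ ^ 2 ≤ ‖x‖ ^ 2 + ‖z‖ ^ 2 := by
  have := norm_add_sq_le_of_star_mul (x := star x) (z := star z) (by simpa using h)
  rwa [← star_add, norm_star, norm_star, norm_star] at this

lemma norm_star_projection_le {p : B} (hp : IsStarProjection p) : ‖p‖ ≤ 1 := hp.norm_le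

/-- orthogonal perturbation of a partial isometry -/
lemma norm_add_le_one {v y : B} (hv : v * star v * v = v) (h1 : star v * y = 0)
    (h2 : y * star v = 0) (hy : ‖y‖ ≤ 1) : ‖v + y‖ ≤ 1 := by
  let _ : PartialOrder B := CStarAlgebra.spectralOrder B
  have _ : StarOrderedRing B := CStarAlgebra.spectralOrderedRing B
  have h1' : star y * v = 0 := by simpa using congrArg star h1
  have h2' : v * star y = 0 := by simpa using congrArg star h2
  set p : B := star v * v with hp
  have hpp : IsStarProjection p := by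
    refine ⟨?_, ?_⟩
    · show p * p = p
      rw [hp, mul_assoc, ← mul_assoc v, hv]
    · exact IsSelfAdjoint.star_mul_self v
  set c : B := star y * y with hc
  have hpc : p * c = 0 := by
    rw [hp, hc, mul_assoc, ← mul_assoc v, h2', zero_mul, mul_zero]
  have hcp : c * p = 0 := by
    rw [hp, hc, mul_assoc, ← mul_assoc y, h2, zero_mul, mul_zero]
  have e : star (v + y) * (v + y) = p + c := by
    rw [star_add, add_mul, mul_add, mul_add, h1, h1']; simp [hp, hc]
  have hc0 : 0 ≤ c := star_mul_self_nonneg y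
  have hc1 : ‖c‖ ≤ 1 := by
    rw [hc, CStarRing.norm_star_mul_self]; nlinarith [norm_nonneg y]
  have hp0 : 0 ≤ p := star_mul_self_nonneg v
  have key : ‖p + c‖ ≤ 1 := by
    rw [← Unitization.norm_inr (𝕜 := ℂ)]
    have hpos : (0 : Unitization ℂ B) ≤ ((p + c : B) : Unitization ℂ B) := by
      rw [Unitization.inr_nonneg_iff]; exact add_nonneg hp0 hc0
    rw [CStarAlgebra.norm_le_one_iff_of_nonneg _ hpos]
    have hc1' : (c : Unitization ℂ B) ≤ 1 :=
      (CStarAlgebra.inr_mem_Icc_iff_norm_le.mpr ⟨hc0, hc1⟩).2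
    have h3 := star_left_conjugate_le_conjugate hc1' (1 - (p : Unitization ℂ B))
    have hps : star (p : Unitization ℂ B) = p := by
      rw [← Unitization.inr_star, hpp.isSelfAdjoint.star_eq]
    have hpcu : (p : Unitization ℂ B) * c = 0 := by
      rw [← Unitization.inr_mul, hpc, Unitization.inr_zero]
    have hcpu : (c : Unitization ℂ B) * p = 0 := by
      rw [← Unitization.inr_mul, hcp, Unitization.inr_zero]
    have hppu : (p : Unitization ℂ B) * p = p := by
      rw [← Unitization.inr_mul, hpp.isIdempotentElem.eq]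
    rw [star_sub, star_one, hps] at h3
    have h4 : (1 - (p : Unitization ℂ B)) * c * (1 - p) = c := by
      rw [sub_mul, one_mul, hpcu, sub_zero, mul_sub, mul_one, hcpu, sub_zero]
    have h5 : (1 - (p : Unitization ℂ B)) * 1 * (1 - p) = 1 - p := by
      rw [mul_one, sub_mul, one_mul, mul_sub, mul_one, hppu]; abel
    rw [h4, h5] at h3
    rw [Unitization.inr_add]
    calc (p : Unitization ℂ B) + c ≤ p + (1 - p) := by gcongr
      _ = 1 := by abel
  rw [← e, CStarRing.norm_star_mul_self] at key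
  nlinarith [norm_nonneg (v + y)]

/-- first order condition: if `‖u + t y‖² ≤ 1 + K t²` for all real `t`, then `u⋆ y` is skew. -/
lemma re_eq_zero {P u y : B} (hP : IsStarProjection P) (hu : star u * u = P) (huP : u * P = u)
    (hyP : y * P = y) {K : ℝ}
    (h : ∀ t : ℝ, ‖u + t • y‖ ^ 2 ≤ 1 + t ^ 2 * K) : star u * y + star y * u = 0 := by
  let _ : PartialOrder B := CStarAlgebra.spectralOrder B
  have _ : StarOrderedRing B := CStarAlgebra.spectralOrderedRing B
  have hPs : star P = P := hP.isSelfAdjoint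
  have hPu : P * star u = star u := by
    have := congrArg star huP; rwa [star_mul, hPs] at this
  have hPy : P * star y = star y := by
    have := congrArg star hyP; rwa [star_mul, hPs] at this
  have hP0 : 0 ≤ P := hP.nonneg
  set r : B := star u * y + star y * u with hr
  -- main estimate
  have main : ∀ t : ℝ, t • r ≤ (t ^ 2 * K) • P := by
    intro t
    set w : B := star (u + t • y) * (u + t • y) with hw
    have hwe : w = P + t • r + t ^ 2 • (star y * y) := by
      rw [hw, star_add, star_smul, add_mul, mul_add, mul_add, hu]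
      simp only [star_trivial, smul_mul_assoc, mul_smul_comm, hr, smul_add, smul_smul, pow_two]
      abel
    have hwn : ‖w‖ ≤ 1 + t ^ 2 * K := by
      rw [hw, CStarRing.norm_star_mul_self, ← pow_two]; exact h t
    have hwP : star P * w * P = w := by
      rw [hPs, hw, star_add, star_smul]
      simp only [star_trivial]
      have a1 : P * (star u + t • star y) = star u + t • star y := by
        rw [mul_add, mul_smul_comm, hPu, hPy]
      have a2 : (u + t • y) * P = u + t • y := by
        rw [add_mul, smul_mul_assoc, huP, hyP]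
      rw [← mul_assoc, a1, mul_assoc, a2]
    have hwsa : IsSelfAdjoint w := IsSelfAdjoint.star_mul_self _
    have h1 := CStarAlgebra.star_left_conjugate_le_norm_smul (a := P) (b := w) (hb := hwsa)
    rw [hwP, hPs, hP.isIdempotentElem.eq] at h1
    have h2 : w ≤ (1 + t ^ 2 * K) • P := h1.trans (smul_le_smul_of_nonneg_right hwn hP0)
    have h3 : 0 ≤ t ^ 2 • (star y * y) := smul_nonneg (sq_nonneg t) (star_mul_self_nonneg y)
    rw [hwe, add_smul, one_smul] at h2
    have h4 : P + t • r ≤ P + (t ^ 2 * K) • P := (le_add_of_nonneg_right h3).trans h2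
    exact le_of_add_le_add_left h4
  have hle : ∀ s : ℝ, 0 < s → r ≤ (s * K) • P := by
    intro s hs
    have h1 := smul_le_smul_of_nonneg_left (main s) (inv_nonneg.mpr hs.le)
    rw [smul_smul, smul_smul, inv_mul_cancel₀ hs.ne', one_smul] at h1
    have : s⁻¹ * (s ^ 2 * K) = s * K := by field_simp
    rwa [this] at h1
  have hge : ∀ s : ℝ, 0 < s → -r ≤ (s * K) • P := by
    intro s hs
    have h1 := smul_le_smul_of_nonneg_left (main (-s)) (inv_nonneg.mpr hs.le)
    rw [smul_smul, smul_smul] at h1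
    have e1 : s⁻¹ * -s = -1 := by field_simp
    have e2 : s⁻¹ * ((-s) ^ 2 * K) = s * K := by field_simp
    rwa [e1, e2, neg_one_smul] at h1
  have hlim : Tendsto (fun n : ℕ => ((1 / ((n : ℝ) + 1)) * K) • P) atTop (𝓝 0) := by
    have h1 := ((tendsto_one_div_add_atTop_nhds_zero_nat (𝕜 := ℝ)).mul_const K).smul_const P
    simpa using h1
  have h1 : r ≤ 0 := ge_of_tendsto hlim (Eventually.of_forall fun n => hle _ (by positivity))
  have h2 : -r ≤ 0 := ge_of_tendsto hlim (Eventually.of_forall fun n => hge _ (by positivity))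
  exact le_antisymm h1 (by simpa using h2)

/-- cut-off functions -/
noncomputable def cut (n : ℕ) (t : ℝ) : ℝ := min 1 (max 0 ((n + 1) * t - 1))

lemma continuous_cut (n : ℕ) : Continuous (cut n) := by
  unfold cut; fun_prop

lemma cut_zero (n : ℕ) : cut n 0 = 0 := by
  unfold cut; norm_num

lemma cut_nonneg (n : ℕ) (t : ℝ) : 0 ≤ cut n t := by
  unfold cut; positivity

lemma cut_le_one (n : ℕ) (t : ℝ) : cut n t ≤ 1 := min_le_left _ _

lemma cut_mul_cut {n m : ℕ} (h : 2 * (m + 1) ≤ n + 1) (t : ℝ) : cut n t * cut m t = cut m t := by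
  have h' : 2 * ((m : ℝ) + 1) ≤ n + 1 := by exact_mod_cast h
  by_cases ht : ((m : ℝ) + 1) * t ≤ 1
  · have : cut m t = 0 := by
      unfold cut
      rw [max_eq_left (by linarith)]
      norm_num
    rw [this, mul_zero]
  · push Not at ht
    have ht0 : 0 < t := by
      by_contra hcon
      push Not at hcon
      have : ((m : ℝ) + 1) * t ≤ 0 := mul_nonpos_of_nonneg_of_nonpos (by positivity) hcon
      linarith
    have : cut n t = 1 := by
      unfold cut
      apply min_eq_left
      apply le_max_of_le_right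
      nlinarith
    rw [this, one_mul]

/-- the cut-offs of a positive element -/
noncomputable def cutEl (k : B) (n : ℕ) : B := cfcₙ (cut n) k

lemma star_cutEl (k : B) (n : ℕ) : star (cutEl k n) = cutEl k n :=
  (IsSelfAdjoint.cfcₙ (f := cut n) (a := k))

lemma norm_cutEl_le (k : B) (n : ℕ) : ‖cutEl k n‖ ≤ 1 := by
  refine norm_cfcₙ_le (fun t _ => ?_)
  rw [Real.norm_of_nonneg (cut_nonneg n t)]
  exact cut_le_one n t

lemma cutEl_mul_cutEl (k : B) {n m : ℕ} (h : 2 * (m + 1) ≤ n + 1) :
    cutEl k n * cutEl k m = cutEl k m := by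
  unfold cutEl
  rw [← cfcₙ_mul (cut n) (cut m) k (continuous_cut n).continuousOn (cut_zero n)
    (continuous_cut m).continuousOn (cut_zero m)]
  congr 1
  funext t
  exact cut_mul_cut h t

lemma mul_cutEl_eq_zero {x k : B} (hk : IsSelfAdjoint k) (h : x * k = 0) (n : ℕ) :
    x * cutEl k n = 0 := by
  let f : ℝ → ℝ := fun t => cut n t / max t (1 / (n + 1))
  have hfc : Continuous f := by
    refine (continuous_cut n).div (by fun_prop) (fun t => ?_)
    have : (0 : ℝ) < 1 / (n + 1) := by positivity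
    exact (lt_max_of_lt_right this).ne'
  have hf0 : f 0 = 0 := by simp [f, cut_zero]
  have hfe : ∀ t, cut n t = t * f t := by
    intro t
    by_cases ht : t ≤ 1 / (n + 1)
    · have : cut n t = 0 := by
        unfold cut
        have : ((n : ℝ) + 1) * t ≤ 1 := by
          rw [le_div_iff₀ (by positivity)] at ht; linarith
        rw [max_eq_left (by linarith)]
        norm_num
      simp [f, this]
    · push Not at ht
      have ht0 : 0 < t := lt_trans (by positivity) ht
      simp only [f]
      rw [max_eq_left ht.le]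
      field_simp
  have : cutEl k n = k * cfcₙ f k := by
    unfold cutEl
    have h1 : cfcₙ (cut n) k = cfcₙ (fun t => t * f t) k := by
      congr 1; funext t; exact hfe t
    rw [h1, cfcₙ_mul (fun t => t) f k (by fun_prop) rfl hfc.continuousOn hf0, cfcₙ_id' ℝ k]
  rw [this, ← mul_assoc, h, zero_mul]

lemma norm_sub_cutEl_mul_le {k : B} (hk : IsSelfAdjoint k)
    (hk0 : ∀ t ∈ quasispectrum ℝ k, 0 ≤ t) (n : ℕ) :
    ‖k - cutEl k n * k‖ ≤ 2 / (n + 1) := by
  have h1 : k - cutEl k n * k = cfcₙ (fun t => t - cut n t * t) k := by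
    rw [cfcₙ_sub (fun t => t) (fun t => cut n t * t) k (by fun_prop) rfl
      ((continuous_cut n).mul continuous_id).continuousOn (by simp),
      cfcₙ_mul (cut n) (fun t => t) k (continuous_cut n).continuousOn (cut_zero n)
        (by fun_prop) rfl, cfcₙ_id' ℝ k]
    rfl
  rw [h1]
  refine norm_cfcₙ_le (fun t ht => ?_)
  have ht0 := hk0 t ht
  have e : t - cut n t * t = (1 - cut n t) * t := by ring
  have hc := cut_le_one n t
  have hc0 := cut_nonneg n t
  rw [e, Real.norm_of_nonneg (mul_nonneg (by linarith) ht0)]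
  by_cases h2 : t ≤ 2 / (n + 1)
  · nlinarith
  · push Not at h2
    have : cut n t = 1 := by
      unfold cut
      apply min_eq_left
      apply le_max_of_le_right
      rw [div_lt_iff₀ (by positivity)] at h2
      linarith
    rw [this, sub_self, zero_mul]
    positivity

lemma mul_eq_zero_of_cutEl {w k : B} (hk : IsSelfAdjoint k)
    (hk0 : ∀ t ∈ quasispectrum ℝ k, 0 ≤ t) (h : ∀ n, w * cutEl k n = 0) : w * k = 0 := by
  rw [← norm_eq_zero]
  refine le_antisymm ?_ (norm_nonneg _)
  have hlim : Tendsto (fun n : ℕ => ‖w‖ * (2 * (1 / ((n : ℝ) + 1)))) atTop (𝓝 0) := by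
    have h1 := ((tendsto_one_div_add_atTop_nhds_zero_nat (𝕜 := ℝ)).const_mul 2).const_mul ‖w‖
    simpa using h1
  refine ge_of_tendsto hlim (Eventually.of_forall fun n => ?_)
  have e : w * k = w * (k - cutEl k n * k) := by
    rw [mul_sub, ← mul_assoc, h n, zero_mul, sub_zero]
  rw [e]
  refine (norm_mul_le _ _).trans ?_
  have := norm_sub_cutEl_mul_le hk hk0 n
  have e2 : (2 : ℝ) * (1 / (n + 1)) = 2 / (n + 1) := by ring
  rw [e2]
  gcongr

end Pool.Agent.Work.MP_64e6b8_an
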