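import Pool.Agent.Work.MP_64e6b8_an.Real

set_option autoImplicit false

namespace Pool.Agent.Work.MP_64e6b8_an

open Filter Topology

universe u v

lemma eq_zero_of_quadratic {c K : ℝ} (h : ∀ t : ℝ, |t| ≤ 1 → t * c ≤ K * t ^ 2) : c = 0 := by
  by_contra hc
  have hc' : 0 < |c| := abs_pos.mpr hc
  set s : ℝ := min 1 (|c| / (2 * (|K| + 1))) with hs
  have hs0 : 0 < s := by
    refine lt_min one_pos (by positivity)
  have hs1 : s ≤ 1 := min_le_left _ _
  have hs2 : s ≤ |c| / (2 * (|K| + 1)) := min_le_right _ _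
  have key : s * |c| ≤ K * s ^ 2 := by
    rcases abs_cases c with ⟨h1, -⟩ | ⟨h1, -⟩
    · have := h s (by rw [abs_of_pos hs0]; exact hs1)
      rwa [h1]
    · have := h (-s) (by rw [abs_neg, abs_of_pos hs0]; exact hs1)
      rw [h1]
      calc s * -c = -s * c := by ring
        _ ≤ K * (-s) ^ 2 := this
        _ = K * s ^ 2 := by ring
  have h2 : |c| ≤ |K| * s := by
    have h3 : s * |c| ≤ s * (|K| * s) := by
      calc s * |c| ≤ K * s ^ 2 := key
        _ ≤ |K| * s ^ 2 := by gcongr; exact le_abs_self K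
        _ = s * (|K| * s) := by ring
    exact le_of_mul_le_mul_left h3 hs0
  have h4 : |K| * s ≤ |K| * (|c| / (2 * (|K| + 1))) := by gcongr
  have h5 : |K| * (|c| / (2 * (|K| + 1))) < |c| := by
    rw [mul_div_assoc', div_lt_iff₀ (by positivity)]
    nlinarith [abs_nonneg K]
  linarith

section

variable {X : Type u} [NormedAddCommGroup X] [NormedSpace ℝ X]
variable {B : Type v} [NonUnitalCStarAlgebra B] {A : NonUnitalStarSubalgebra ℝ B}
variable {Φ : (X →L[ℝ] ℝ) ≃ₗᵢ[ℝ] A}

lemma index_zero_of_operator [CompleteSpace X] (S : A →L[ℝ] A) (hS : UCont Φ S) (hne : S ≠ 0)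
    {K : ℝ} (hK : ∀ t : ℝ, |t| ≤ 1 → ∀ x, ‖x + t • S x‖ ≤ (1 + K * t ^ 2) * ‖x‖) :
    numericalIndex X = 0 := by
  obtain ⟨T, hT⟩ := exists_preadjoint (Φ := Φ) S hS
  refine numericalIndex_eq_zero (T := T) ?_ ?_
  · rintro rfl
    apply hne
    ext y
    have : Φ.symm (S y) = Φ.symm 0 := by
      ext ξ
      rw [hT]
      simp
    have := Φ.symm.injective this
    rw [this]
    rfl
  · intro x f hx hf hfx
    refine eq_zero_of_quadratic (K := K) (fun t ht => ?_)
    have h1 := hK t ht (Φ f)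
    rw [Φ.norm_map, hf, mul_one] at h1
    have h2 : (Φ.symm (Φ f + t • S (Φ f))) x = 1 + t * f (T x) := by
      have h3 := hT (Φ f) x
      rw [Φ.symm_apply_apply] at h3
      rw [map_add, Φ.symm_apply_apply, map_smul]
      show f x + t • (Φ.symm (S (Φ f)) x) = _
      rw [h3, hfx, smul_eq_mul]
    have h4 : (Φ.symm (Φ f + t • S (Φ f))) x ≤ ‖Φ f + t • S (Φ f)‖ := by
      calc (Φ.symm (Φ f + t • S (Φ f))) x ≤ ‖(Φ.symm (Φ f + t • S (Φ f))) x‖ := Real.le_norm_self _
        _ ≤ ‖Φ.symm (Φ f + t • S (Φ f))‖ * ‖x‖ := ContinuousLinearMap.le_opNorm _ _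
        _ = _ := by rw [Φ.symm.norm_map, hx, mul_one]
    linarith

lemma skew_norm_le {a : A} (ha : star a = -a) (t : ℝ) (x : A) :
    ‖x + t • (a * x)‖ ≤ (1 + ‖a‖ ^ 2 * t ^ 2) * ‖x‖ := by
  have e : star (x + t • (a * x)) * (x + t • (a * x))
      = star x * x + t ^ 2 • (star (a * x) * (a * x)) := by
    simp only [star_add, star_smul, star_mul, ha, add_mul, mul_add, star_trivial, smul_mul_assoc,
      mul_smul_comm, smul_smul, mul_neg, neg_mul, smul_neg, mul_assoc, pow_two, smul_add]
    abel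
  have h1 : ‖x + t • (a * x)‖ * ‖x + t • (a * x)‖ ≤ ‖x‖ * ‖x‖ + t ^ 2 * ((‖a‖ * ‖x‖) * (‖a‖ * ‖x‖)) := by
    calc ‖x + t • (a * x)‖ * ‖x + t • (a * x)‖
        = ‖star x * x + t ^ 2 • (star (a * x) * (a * x))‖ := by
          rw [← sa_norm_star_mul_self, e]
      _ ≤ ‖star x * x‖ + ‖t ^ 2 • (star (a * x) * (a * x))‖ := norm_add_le _ _
      _ = ‖x‖ * ‖x‖ + t ^ 2 * (‖a * x‖ * ‖a * x‖) := by
          rw [norm_smul, sa_norm_star_mul_self, sa_norm_star_mul_self,
            Real.norm_of_nonneg (sq_nonneg t)]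
      _ ≤ _ := by
          have := norm_mul_le a x
          gcongr
  have h2 : 0 ≤ (1 + ‖a‖ ^ 2 * t ^ 2) * ‖x‖ := by positivity
  nlinarith [norm_nonneg (x + t • (a * x)), sq_nonneg (‖a‖ * t * ‖x‖),
    sq_nonneg (‖a‖ ^ 2 * t ^ 2 * ‖x‖), norm_nonneg x, norm_nonneg a]

lemma skew_norm_le' {a : A} (ha : star a = -a) (t : ℝ) (x : A) :
    ‖x + t • (x * a)‖ ≤ (1 + ‖a‖ ^ 2 * t ^ 2) * ‖x‖ := by
  have h := skew_norm_le ha (-t) (star x)
  rw [← sa_norm_star (x + t • (x * a)), star_add, star_smul, star_mul, ha]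
  simp only [star_trivial]
  rw [sa_norm_star] at h
  have e : star x + -t • (a * star x) = star x + t • (-a * star x) := by
    rw [neg_mul, smul_neg, neg_smul]
  rw [e] at h
  simpa using h

/-- a non-zero skew element forces `n(A) = 0` -/
lemma index_self_zero {a : A} (ha : star a = -a) (hne : a ≠ 0) : numericalIndex A = 0 := by
  refine numericalIndex_eq_zero (T := ContinuousLinearMap.mul ℝ A a) ?_ ?_
  · intro h
    have h1 : a * a = 0 := by
      have := DFunLike.congr_fun h a
      simpa using this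
    apply hne
    apply sa_eq_zero
    rw [ha, neg_mul, h1, neg_zero]
  · intro x f hx hf hfx
    refine eq_zero_of_quadratic (K := ‖a‖ ^ 2) (fun t _ => ?_)
    have h1 := skew_norm_le ha t x
    rw [hx, mul_one] at h1
    have h2 : f (x + t • (a * x)) ≤ ‖x + t • (a * x)‖ := by
      calc f (x + t • (a * x)) ≤ ‖f (x + t • (a * x))‖ := Real.le_norm_self _
        _ ≤ ‖f‖ * ‖x + t • (a * x)‖ := f.le_opNorm _
        _ = _ := by rw [hf, one_mul]
    rw [map_add, map_smul, hfx, smul_eq_mul] at h2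
    show t * f (a * x) ≤ _
    linarith

/-- if left multiplication by a non-zero skew element is weak-star continuous, `n(X) = 0` -/
lemma index_zero_of_skew [CompleteSpace X] {a : A} (ha : star a = -a) (hne : a ≠ 0)
    (hS : UCont Φ (fun x : A => a * x)) : numericalIndex X = 0 := by
  refine index_zero_of_operator (Φ := Φ) (ContinuousLinearMap.mul ℝ A a) hS ?_
    (K := ‖a‖ ^ 2) (fun t _ x => skew_norm_le ha t x)
  intro h
  have h1 : a * a = 0 := by
    have := DFunLike.congr_fun h a
    simpa using this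
  apply hne
  apply sa_eq_zero
  rw [ha, neg_mul, h1, neg_zero]

/-- extreme points of the unit ball of a closed subspace stable under the triple cube -/
lemma exists_tripotent {N : Submodule ℝ A} (hN : UClosed Φ (N : Set A))
    (htr : ∀ v ∈ N, v * star v * v ∈ N) :
    ∃ v ∈ N, v * star v * v = v ∧ ∀ a ∈ N, ‖v + a‖ ≤ 1 → ‖v - a‖ ≤ 1 → a = 0 := by
  obtain ⟨v, hv, hv1, hvext⟩ := exists_extreme hN
  refine ⟨v, hv, ?_, hvext⟩
  have h1 := hvext ((1 / 2 : ℝ) • (v - v * star v * v))
    (N.smul_mem _ (N.sub_mem hv (htr v hv)))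
    (sa_norm_pert hv1 (by norm_num [abs_of_pos]))
    (by
      have := sa_norm_pert hv1 (c := -(1 / 2)) (by rw [abs_neg]; norm_num [abs_of_pos])
      rwa [neg_smul, ← sub_eq_add_neg] at this)
  have h2 : v - v * star v * v = 0 := by
    have := smul_eq_zero.mp h1
    rcases this with h | h
    · norm_num at h
    · exact h
  exact (sub_eq_zero.mp h2).symm

lemma ne_zero_of_extreme {N : Submodule ℝ A} {v : A}
    (hext : ∀ a ∈ N, ‖v + a‖ ≤ 1 → ‖v - a‖ ≤ 1 → a = 0) {x : A} (hx : x ∈ N) (hx0 : x ≠ 0) :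
    v ≠ 0 := by
  rintro rfl
  have hpos : 0 < ‖x‖ := norm_pos_iff.mpr hx0
  have h1 : ‖(‖x‖⁻¹ • x)‖ = 1 := by rw [norm_smul, norm_inv, norm_norm, inv_mul_cancel₀ hpos.ne']
  have h2 := hext (‖x‖⁻¹ • x) (N.smul_mem _ hx) (by rw [zero_add, h1])
    (by rw [zero_sub, norm_neg, h1])
  rcases smul_eq_zero.mp h2 with h | h
  · exact hpos.ne' (inv_eq_zero.mp h)
  · exact hx0 h

/-- Case I: there is a non-central projection. -/
lemma case_one [CompleteSpace X] {p : A} (hp : IsStarProjection p) {x : A} (hx : p * x ≠ x * p)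
    (Φ : (X →L[ℝ] ℝ) ≃ₗᵢ[ℝ] A) : numericalIndex X = 0 := by
  have hps : star p = p := hp.isSelfAdjoint.star_eq
  have hpp : p * p = p := hp.isIdempotentElem.eq
  let N : Submodule ℝ A :=
    { carrier := {y | p * y = y ∧ y * p = 0}
      add_mem' := fun {a b} ha hb => ⟨by rw [mul_add, ha.1, hb.1], by rw [add_mul, ha.2, hb.2, add_zero]⟩
      zero_mem' := ⟨mul_zero p, zero_mul p⟩
      smul_mem' := fun c a ha => ⟨by rw [mul_smul_comm, ha.1], by rw [smul_mul_assoc, ha.2, smul_zero]⟩ }
  have hN : UClosed Φ (N : Set A) :=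
    (uclosed_proj_fix (Φ := Φ) hp).inter (uclosed_mul_proj_zero (Φ := Φ) hp)
  have htr : ∀ v ∈ N, v * star v * v ∈ N := by
    rintro v ⟨h1, h2⟩
    refine ⟨?_, ?_⟩
    · rw [← mul_assoc, ← mul_assoc, h1]
    · rw [mul_assoc, h2, mul_zero]
  -- a non-zero element of `N`
  have hmem : ∀ y : A, p * y - p * y * p ∈ N := by
    intro y
    refine ⟨?_, ?_⟩
    · rw [mul_sub, ← mul_assoc, hpp, ← mul_assoc, ← mul_assoc, hpp]
    · rw [sub_mul, mul_assoc (p * y) p p, hpp, sub_self]
  have hex : ∃ b ∈ N, b ≠ 0 := by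
    by_contra hcon
    push Not at hcon
    apply hx
    have h1 : p * x = p * x * p := sub_eq_zero.mp (hcon _ (hmem x))
    have h2 : p * star x = p * star x * p := sub_eq_zero.mp (hcon _ (hmem (star x)))
    have h3 : x * p = p * x * p := by
      have := congrArg star h2
      simpa [hps, mul_assoc] using this
    rw [h1, h3]
  obtain ⟨b, hb, hb0⟩ := hex
  obtain ⟨v, ⟨hv1, hv2⟩, hvv, hext⟩ := exists_tripotent hN htr
  have hv0 : v ≠ 0 := ne_zero_of_extreme hext hb hb0
  have hw1 : star v * p = star v := by have := congrArg star hv1; rwa [star_mul, hps] at this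
  have hw2 : p * star v = 0 := by
    have := congrArg star hv2; rwa [star_mul, hps, star_zero] at this
  have hsq : v * v = 0 := by
    calc v * v = v * (p * v) := by rw [hv1]
      _ = 0 := by rw [← mul_assoc, hv2, zero_mul]
  have hsq' : star v * star v = 0 := by
    have := congrArg star hsq; rwa [star_mul, star_zero] at this
  have hvv' : star v * (v * star v) = star v := by
    have := congrArg star hvv; simpa [mul_assoc] using this
  -- the second projection
  set w : A := v * star v + star v * v + v + star v with hw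
  have hww : w * w = (2 : ℝ) • w := by
    have a1 : v * (star v * v) = v := by rw [← mul_assoc, hvv]
    have hr : ∀ z : A, v * (v * z) = 0 := fun z => by rw [← mul_assoc, hsq, zero_mul]
    have hr' : ∀ z : A, star v * (star v * z) = 0 := fun z => by rw [← mul_assoc, hsq', zero_mul]
    rw [hw, two_smul]
    simp only [add_mul, mul_add, mul_assoc, hr, hr', a1, hvv', hsq, hsq', mul_zero]
    abel
  set r : A := (1 / 2 : ℝ) • w with hr
  have hrp : IsStarProjection r := by
    refine ⟨?_, ?_⟩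
    · show r * r = r
      rw [hr, smul_mul_assoc, mul_smul_comm, hww, smul_smul, smul_smul]
      norm_num
    · show star r = r
      rw [hr, hw, star_smul]
      simp only [star_add, star_mul, star_star, star_trivial]
      congr 1
      abel
  have hcomm : (2 : ℝ) • (p * r - r * p) = v - star v := by
    have e1 : p * w = v * star v + v := by
      rw [hw]; simp only [mul_add, ← mul_assoc, hv1, hw2, zero_mul]; abel
    have e2 : w * p = v * star v + star v := by
      rw [hw]; simp only [add_mul, mul_assoc, hv2, hw1, mul_zero]; abel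
    rw [hr, mul_smul_comm, smul_mul_assoc, ← smul_sub, smul_smul, e1, e2]
    norm_num
  -- conclusion
  refine index_zero_of_skew (Φ := Φ) (a := v - star v) ?_ ?_ ?_
  · rw [star_sub, star_star]; abel
  · intro h
    have h1 : v = star v := sub_eq_zero.mp h
    apply hv0
    calc v = p * v := hv1.symm
      _ = p * star v := by rw [← h1]
      _ = 0 := hw2
  · intro ι U y z C hC hy
    have b1 := ucont_proj_mul (Φ := Φ) hrp ι U y z C hC hy
    have b2 := ucont_proj_mul (Φ := Φ) hp ι U y z C hC hy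
    have b3 := ucont_proj_mul (Φ := Φ) hp ι U _ _ C
      (hC.mono fun i hi => (sa_norm_proj_mul_le hrp _).trans hi) b1
    have b4 := ucont_proj_mul (Φ := Φ) hrp ι U _ _ C
      (hC.mono fun i hi => (sa_norm_proj_mul_le hp _).trans hi) b2
    have b5 := (b3.sub b4).smul 2
    have e : ∀ q : A, (v - star v) * q = (2 : ℝ) • (p * (r * q) - r * (p * q)) := by
      intro q
      rw [← hcomm, smul_mul_assoc, sub_mul, mul_assoc, mul_assoc]
    show WLim Φ (U : Filter ι) (fun i => (v - star v) * y i) ((v - star v) * z)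
    rw [e z]
    exact b5.congr' (Eventually.of_forall fun i => (e (y i)).symm)

end

end Pool.Agent.Work.MP_64e6b8_an
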