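import Pool.Agent.Work.MP_64e6b8_an.CaseOne

set_option autoImplicit false

namespace Pool.Agent.Work.MP_64e6b8_an

open Filter Topology

universe u v

section

variable {X : Type u} [NormedAddCommGroup X] [NormedSpace ℝ X]
variable {B : Type v} [NonUnitalCStarAlgebra B] {A : NonUnitalStarSubalgebra ℝ B}

lemma eq_zero_of_extreme {N : Submodule ℝ A} {v y : A} (hv : v * star v * v = v)
    (hext : ∀ a ∈ N, ‖v + a‖ ≤ 1 → ‖v - a‖ ≤ 1 → a = 0) (hy : y ∈ N) (h1 : star v * y = 0)
    (h2 : y * star v = 0) : y = 0 := by
  by_contra hne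
  have hpos : 0 < ‖y‖ := norm_pos_iff.mpr hne
  have hn : ‖(‖y‖⁻¹ • y)‖ ≤ 1 := by
    rw [norm_smul, norm_inv, norm_norm, inv_mul_cancel₀ hpos.ne']
  have h3 := hext (‖y‖⁻¹ • y) (N.smul_mem _ hy)
    (sa_norm_add_le_one hv (by rw [mul_smul_comm, h1, smul_zero])
      (by rw [smul_mul_assoc, h2, smul_zero]) hn)
    (by
      rw [sub_eq_add_neg]
      refine sa_norm_add_le_one hv ?_ ?_ (by rwa [norm_neg])
      · rw [mul_neg, mul_smul_comm, h1, smul_zero, neg_zero]
      · rw [neg_mul, smul_mul_assoc, h2, smul_zero, neg_zero])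
  rcases smul_eq_zero.mp h3 with h | h
  · exact hpos.ne' (inv_eq_zero.mp h)
  · exact hne h

lemma proj_of_tripotent {v : A} (hv : v * star v * v = v) : IsStarProjection (star v * v) := by
  refine ⟨?_, ?_⟩
  · show star v * v * (star v * v) = star v * v
    rw [mul_assoc, ← mul_assoc v, hv]
  · show star (star v * v) = star v * v
    rw [star_mul, star_star]

/-- annihilator projections -/
lemma exists_annihilator_proj (Φ : (X →L[ℝ] ℝ) ≃ₗᵢ[ℝ] A) (hA : IsClosed (A : Set B))
    (hcen : ∀ p : A, IsStarProjection p → ∀ x : A, p * x = x * p) {k : A} (hk : star k = k)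
    (hk0 : ∀ t ∈ quasispectrum ℝ (k : B), 0 ≤ t) :
    ∃ p : A, IsStarProjection p ∧ p * k = 0 ∧ ∀ x : A, x * k = 0 → p * x = x := by
  let N : Submodule ℝ A :=
    { carrier := {y | y * k = 0}
      add_mem' := fun {a b} ha hb => by
        show (a + b) * k = 0
        rw [add_mul, show a * k = 0 from ha, show b * k = 0 from hb, add_zero]
      zero_mem' := zero_mul k
      smul_mem' := fun c a ha => by
        show (c • a) * k = 0
        rw [smul_mul_assoc, show a * k = 0 from ha, smul_zero] }
  have hN : UClosed Φ (N : Set A) := uclosed_annihilator (Φ := Φ) hk hk0 hA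
  have htr : ∀ v ∈ N, v * star v * v ∈ N := by
    intro v hv
    show v * star v * v * k = 0
    rw [mul_assoc, show v * k = 0 from hv, mul_zero]
  obtain ⟨v, hvN, hvv, hext⟩ := exists_tripotent hN htr
  have hp := proj_of_tripotent hvv
  have hvk : v * k = 0 := hvN
  refine ⟨star v * v, hp, ?_, ?_⟩
  · rw [mul_assoc, hvk, mul_zero]
  · intro x hx
    have hc := hcen _ hp
    have hvs : star v * v * star v = star v := by
      have := congrArg star hvv
      simpa [mul_assoc] using this
    have h0 : x - star v * v * x = 0 := by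
      refine eq_zero_of_extreme hvv hext ?_ ?_ ?_
      · show (x - star v * v * x) * k = 0
        rw [sub_mul, hx, mul_assoc, hx, mul_zero, sub_zero]
      · rw [mul_sub]
        have : star v * (star v * v * x) = star v * x := by
          calc star v * (star v * v * x) = star v * (star v * v) * x := by simp only [mul_assoc]
            _ = star v * v * star v * x := by rw [← hc (star v)]
            _ = star v * x := by rw [hvs]
        rw [this, sub_self]
      · rw [sub_mul, hc x, mul_assoc x, hvs, sub_self]
    exact (sub_eq_zero.mp h0).symm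

/-- existence of a unit -/
lemma exists_unit (Φ : (X →L[ℝ] ℝ) ≃ₗᵢ[ℝ] A) (hA : IsClosed (A : Set B))
    (hcen : ∀ p : A, IsStarProjection p → ∀ x : A, p * x = x * p) :
    ∃ P : A, IsStarProjection P ∧ (∀ x : A, P * x = x) ∧ (∀ x : A, x * P = x) := by
  obtain ⟨P, hP, -, h⟩ := exists_annihilator_proj Φ hA hcen (k := 0) (star_zero _) (by
    intro t ht
    have h0 : quasispectrum ℝ ((0 : A) : B) = {0} := CFC.quasispectrum_zero_eq
    rw [h0] at ht
    rw [Set.mem_singleton_iff.mp ht])
  have h1 : ∀ x : A, P * x = x := fun x => h x (mul_zero x)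
  exact ⟨P, hP, h1, fun x => by rw [← hcen P hP, h1]⟩

lemma uclosed_skew {Φ : (X →L[ℝ] ℝ) ≃ₗᵢ[ℝ] A} {P r w : A} (hP : IsStarProjection P)
    (hPl : ∀ x : A, P * x = x) (hPr : ∀ x : A, x * P = x) (hr : IsStarProjection r)
    (hw : w * star w = r) (hwr : w * r = w) :
    UClosed Φ {x : A | r * x = x ∧ star (w * x) = -(w * x)} := by
  have hPs : star P = P := hP.isSelfAdjoint.star_eq
  have hrs : star r = r := hr.isSelfAdjoint.star_eq
  have hrr : r * r = r := hr.isIdempotentElem.eq
  have hrw : r * star w = star w := by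
    have := congrArg star hwr; rwa [star_mul, hrs] at this
  set u : A := star w + (P - r) with hu
  have hus : star u = w + (P - r) := by
    rw [hu, star_add, star_star, star_sub, hPs, hrs]
  have huu : star u * u = P := by
    rw [hus, hu]
    simp only [add_mul, mul_add, sub_mul, mul_sub, hPl, hPr, hw, hwr, hrw, hrr]
    abel
  have h1 := uclosed_re (Φ := Φ) hP hPr huu
  have h2 := (uclosed_proj_fix (Φ := Φ) hr).inter h1
  have e : {x : A | r * x = x} ∩ {x : A | star u * x + star x * u = 0}
      = {x : A | r * x = x ∧ star (w * x) = -(w * x)} := by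
    refine Set.ext fun x => ?_
    simp only [Set.mem_inter_iff, Set.mem_ofPred_eq]
    refine and_congr_right fun hx => ?_
    have a1 : star u * x = w * x := by
      rw [hus]; simp only [add_mul, sub_mul, hPl, hx]; abel
    have a2 : star x * u = star (w * x) := by
      have := congrArg star a1
      rwa [star_mul, star_star] at this
    rw [a1, a2, add_comm, add_eq_zero_iff_eq_neg]
  rwa [e] at h2

/-- the positive part of a self-adjoint element anticommuting with a complex unit vanishes -/
lemma neg_nonneg_of_anticomm [PartialOrder B] [StarOrderedRing B]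
    (Φ : (X →L[ℝ] ℝ) ≃ₗᵢ[ℝ] A) (hA : IsClosed (A : Set B))
    (hcen : ∀ p : A, IsStarProjection p → ∀ x : A, p * x = x * p) {a s r : A}
    (hr : IsStarProjection r) (ha : star a = -a) (haa : a * a = -r) (hs : star s = s)
    (hrs : r * s = s) (has : a * s = -(s * a)) : 0 ≤ -(s : B) := by
  have hsa : IsSelfAdjoint (s : B) := congrArg Subtype.val hs
  let f : ℝ → ℝ := fun t => max t 0
  let g : ℝ → ℝ := fun t => max (-t) 0
  have hf : Continuous f := by fun_prop
  have hg : Continuous g := by fun_prop
  have hf0 : f 0 = 0 := by simp [f]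
  have hg0 : g 0 = 0 := by simp [g]
  let h : A := ⟨cfcₙ f (s : B), cfcₙ_mem (𝕜' := ℝ) (hs := hA) _ s.2⟩
  let k : A := ⟨cfcₙ g (s : B), cfcₙ_mem (𝕜' := ℝ) (hs := hA) _ s.2⟩
  have hhk : h * k = 0 := by
    apply Subtype.ext
    show cfcₙ f (s : B) * cfcₙ g (s : B) = 0
    rw [← cfcₙ_mul f g (s : B) hf.continuousOn hf0 hg.continuousOn hg0]
    have : (fun t => f t * g t) = fun _ => (0 : ℝ) := by
      funext t
      rcases le_total t 0 with ht | ht
      · simp [f, ht]
      · simp [g, ht]
    rw [this, cfcₙ_const_zero]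
  have hsub : s = h - k := by
    apply Subtype.ext
    show (s : B) = cfcₙ f (s : B) - cfcₙ g (s : B)
    rw [← cfcₙ_sub f g (s : B) hf.continuousOn hf0 hg.continuousOn hg0]
    have : (fun t => f t - g t) = fun t => t := by
      funext t
      rcases le_total t 0 with ht | ht
      · simp [f, g, ht]
      · simp [f, g, ht]
    rw [this, cfcₙ_id' ℝ (s : B)]
  have hh0 : 0 ≤ (h : B) := cfcₙ_nonneg (fun t _ => le_max_right _ _)
  have hk0 : 0 ≤ (k : B) := cfcₙ_nonneg (fun t _ => le_max_right _ _)
  have hks : star k = k := Subtype.ext hk0.isSelfAdjoint.star_eq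
  obtain ⟨q, hq, hqk, hqx⟩ := exists_annihilator_proj Φ hA hcen hks
    (fun t ht => quasispectrum_nonneg_of_nonneg (k : B) hk0 t ht)
  have hqh : q * h = h := hqx h hhk
  have hqs : q * s = h := by rw [hsub, mul_sub, hqh, hqk, sub_zero]
  have hc := hcen q hq
  have hcr := hcen r hr
  have hsr : s * r = s := by rw [← hcr, hrs]
  have key : a * h * star a = -h := by
    calc a * h * star a = a * (q * s) * star a := by rw [hqs]
      _ = q * (a * s) * star a := by rw [← mul_assoc a, ← hc a, mul_assoc q]
      _ = q * (s * (a * a)) := by rw [has, ha]; simp only [mul_neg, neg_mul, mul_assoc, neg_neg]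
      _ = -h := by rw [haa, mul_neg, hsr, mul_neg, hqs]
  have h1 : 0 ≤ (a : B) * h * star (a : B) := star_right_conjugate_nonneg hh0 _
  have h2 : (a : B) * h * star (a : B) = -(h : B) := congrArg Subtype.val key
  rw [h2] at h1
  have h3 : (h : B) = 0 := le_antisymm (by simpa using h1) hh0
  have h4 : -(s : B) = k := by
    have : (s : B) = h - k := congrArg Subtype.val hsub
    rw [this, h3, zero_sub, neg_neg]
  rw [h4]
  exact hk0

lemma eq_zero_of_anticomm (Φ : (X →L[ℝ] ℝ) ≃ₗᵢ[ℝ] A) (hA : IsClosed (A : Set B))
    (hcen : ∀ p : A, IsStarProjection p → ∀ x : A, p * x = x * p) {a s r : A}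
    (hr : IsStarProjection r) (ha : star a = -a) (haa : a * a = -r) (hs : star s = s)
    (hrs : r * s = s) (has : a * s = -(s * a)) : s = 0 := by
  let _ : PartialOrder B := CStarAlgebra.spectralOrder B
  have _ : StarOrderedRing B := CStarAlgebra.spectralOrderedRing B
  have h1 := neg_nonneg_of_anticomm Φ hA hcen hr ha haa hs hrs has
  have h2 := neg_nonneg_of_anticomm Φ hA hcen hr ha haa (s := -s) (by rw [star_neg, hs])
    (by rw [mul_neg, hrs]) (by rw [mul_neg, neg_mul, has])
  have h2' : 0 ≤ (s : B) := by
    have : -((-s : A) : B) = s := by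
      show -(-(s : B)) = s
      exact neg_neg _
    rwa [this] at h2
  exact Subtype.ext (le_antisymm (by simpa using h1) h2')

/-- self-adjoint elements commute with complex units -/
lemma comm_of_sa (Φ : (X →L[ℝ] ℝ) ≃ₗᵢ[ℝ] A) (hA : IsClosed (A : Set B))
    (hcen : ∀ p : A, IsStarProjection p → ∀ x : A, p * x = x * p) {a y r : A}
    (hr : IsStarProjection r) (ha : star a = -a) (haa : a * a = -r) (hra : r * a = a)
    (hy : star y = y) (hry : r * y = y) : a * y = y * a := by
  have hyr : y * r = y := by rw [← hcen r hr, hry]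
  have har : a * r = a := by rw [← hcen r hr, hra]
  have e1 : a * (y + a * y * a) = a * y - y * a := by
    have : a * (a * y * a) = (a * a) * y * a := by simp only [mul_assoc]
    rw [mul_add, this, haa, neg_mul, neg_mul, hry]; abel
  have e2 : (y + a * y * a) * a = y * a - a * y := by
    have : a * y * a * a = a * y * (a * a) := by simp only [mul_assoc]
    rw [add_mul, this, haa, mul_neg, mul_assoc a, hyr]; abel
  have h0 : y + a * y * a = 0 := by
    refine eq_zero_of_anticomm Φ hA hcen hr ha haa ?_ ?_ ?_
    · simp only [star_add, star_mul, hy, ha, mul_neg, neg_mul, neg_neg, mul_assoc]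
    · rw [mul_add, hry, ← mul_assoc, ← mul_assoc, hra]
    · rw [e1, e2]; abel
  rw [h0, mul_zero] at e1
  exact (sub_eq_zero.mp e1.symm)

lemma star_mem_corner {r y : A} (hr : IsStarProjection r)
    (hcen : ∀ p : A, IsStarProjection p → ∀ x : A, p * x = x * p) (hry : r * y = y) :
    r * star y = star y := by
  have := congrArg star hry
  rw [star_mul, hr.isSelfAdjoint.star_eq] at this
  rw [hcen r hr]; exact this

/-- if `a y` is skew then `a` anticommutes with `y - y⋆` -/
lemma anticomm_of_skew (Φ : (X →L[ℝ] ℝ) ≃ₗᵢ[ℝ] A) (hA : IsClosed (A : Set B))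
    (hcen : ∀ p : A, IsStarProjection p → ∀ x : A, p * x = x * p) {a y r : A}
    (hr : IsStarProjection r) (ha : star a = -a) (haa : a * a = -r) (hra : r * a = a)
    (hry : r * y = y) (hay : star (a * y) = -(a * y)) :
    a * (y - star y) = -((y - star y) * a) := by
  have h1 : star y * a = a * y := by
    rw [star_mul, ha, mul_neg, neg_inj] at hay; exact hay
  have h2 : a * (y + star y) = (y + star y) * a := by
    refine comm_of_sa Φ hA hcen hr ha haa hra ?_ ?_
    · rw [star_add, star_star, add_comm]
    · rw [mul_add, hry, star_mem_corner hr hcen hry]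
  have h3 : a * star y = y * a := by
    rw [mul_add, add_mul, h1] at h2
    have : a * y + a * star y = a * y + y * a := by rw [h2]; abel
    exact add_left_cancel this
  rw [mul_sub, sub_mul, h1, h3]
  abel

lemma skew_of_sa (Φ : (X →L[ℝ] ℝ) ≃ₗᵢ[ℝ] A) (hA : IsClosed (A : Set B))
    (hcen : ∀ p : A, IsStarProjection p → ∀ x : A, p * x = x * p) {a y r : A}
    (hr : IsStarProjection r) (ha : star a = -a) (haa : a * a = -r) (hra : r * a = a)
    (hry : r * y = y) (hy : star y = y) : star (a * y) = -(a * y) := by
  rw [star_mul, hy, ha, mul_neg, comm_of_sa Φ hA hcen hr ha haa hra hy hry]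

/-- There is a complex unit `e` on a non-zero central corner such that self-adjointness up to a
unitary is a closed condition. -/
lemma exists_good_unit (Φ : (X →L[ℝ] ℝ) ≃ₗᵢ[ℝ] A) (hA : IsClosed (A : Set B))
    (hcen : ∀ p : A, IsStarProjection p → ∀ x : A, p * x = x * p)
    (hsk : ∃ a : A, star a = -a ∧ a ≠ 0) :
    ∃ r e : A, IsStarProjection r ∧ r ≠ 0 ∧ star e = -e ∧ e * e = -r ∧ r * e = e ∧
      (∀ w : A, w * star w = r → w * r = w →
        UClosed Φ {x : A | r * x = x ∧ star (w * x) = w * x}) ∧
      (∀ w : A, w * star w = r → w * r = w →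
        UClosed Φ {x : A | r * x = x ∧ star (w * x) = -(w * x)}) := by
  obtain ⟨P, hP, hPl, hPr⟩ := exists_unit Φ hA hcen
  have hPs : star P = P := hP.isSelfAdjoint.star_eq
  -- the skew part
  let K : Submodule ℝ A :=
    { carrier := {y | star y = -y}
      add_mem' := fun {a b} ha hb => by
        show star (a + b) = -(a + b)
        rw [star_add, show star a = -a from ha, show star b = -b from hb]; abel
      zero_mem' := by show star (0 : A) = -0; simp
      smul_mem' := fun c a ha => by
        show star (c • a) = -(c • a)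
        rw [star_smul, show star a = -a from ha]; simp }
  have hK : UClosed Φ (K : Set A) := by
    have h1 := uclosed_skew (Φ := Φ) hP hPl hPr hP (w := P) (by rw [hPs, hPl]) (hPl P)
    have e : {x : A | P * x = x ∧ star (P * x) = -(P * x)} = (K : Set A) := by
      refine Set.ext fun x => ?_
      constructor
      · rintro ⟨-, h⟩
        rw [hPl] at h; exact h
      · intro h
        exact ⟨hPl x, by rw [hPl]; exact h⟩
    rwa [e] at h1
  have htr : ∀ v ∈ K, v * star v * v ∈ K := by
    intro v hv
    have hv' : star v = -v := hv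
    have e1 : v * star v * v = -(v * v * v) := by rw [hv', mul_neg, neg_mul]
    show star (v * star v * v) = -(v * star v * v)
    rw [e1]
    simp only [star_neg, star_mul, hv', mul_neg, neg_mul, mul_assoc, neg_neg]
  obtain ⟨e, heK, hee, hext⟩ := exists_tripotent hK htr
  obtain ⟨a, ha, ha0⟩ := hsk
  have he0 : e ≠ 0 := ne_zero_of_extreme hext (x := a) ha ha0
  have hes : star e = -e := heK
  set p : A := star e * e with hp
  have hpp : IsStarProjection p := proj_of_tripotent hee
  have hpe : e * e = -p := by rw [hp, hes, neg_mul, neg_neg]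
  have hep : e * p = e := by rw [hp, ← mul_assoc]; exact hee
  have hpe' : p * e = e := by rw [hcen p hpp, hep]
  have hp0 : p ≠ 0 := fun h => he0 (sa_eq_zero (by rw [← hp]; exact h))
  by_cases hKm : ∀ x : A, p * x = x → star x = -x → e * x = -(x * e) → x = 0
  · -- complex case
    refine ⟨p, e, hpp, hp0, hes, hpe, hpe', ?_, fun w hw hwr =>
      uclosed_skew hP hPl hPr hpp hw hwr⟩
    intro w hw hwr
    have hrw : p * w = w := by rw [hcen p hpp, hwr]
    have h1 := uclosed_skew (Φ := Φ) hP hPl hPr hpp (w := e * w) (by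
      rw [star_mul, hes, mul_assoc, ← mul_assoc w, hw, mul_neg, mul_neg, ← mul_assoc, hep, hpe,
        neg_neg]) (by rw [mul_assoc, hwr])
    have eq : {x : A | p * x = x ∧ star (e * w * x) = -(e * w * x)}
        = {x : A | p * x = x ∧ star (w * x) = w * x} := by
      refine Set.ext fun x => ?_
      simp only [Set.mem_ofPred_eq]
      refine and_congr_right fun hx => ?_
      have hry : p * (w * x) = w * x := by rw [← mul_assoc, hrw]
      rw [mul_assoc]
      constructor
      · intro h
        have h2 := anticomm_of_skew Φ hA hcen hpp hes hpe hpe' hry h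
        have h3 := hKm (w * x - star (w * x)) (by
          rw [mul_sub, hry, star_mem_corner hpp hcen hry]) (by
          rw [star_sub, star_star]; abel) h2
        exact (sub_eq_zero.mp h3).symm
      · intro h
        exact skew_of_sa Φ hA hcen hpp hes hpe hpe' hry h
    rwa [eq] at h1
  · -- quaternionic case
    push Not at hKm
    obtain ⟨x₀, hx1, hx2, hx3, hx4⟩ := hKm
    let N : Submodule ℝ A :=
      { carrier := {x | p * x = x ∧ star x = -x ∧ e * x = -(x * e)}
        add_mem' := by
          rintro a b ⟨h1, h2, h3⟩ ⟨h4, h5, h6⟩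
          refine ⟨by rw [mul_add, h1, h4], by rw [star_add, h2, h5]; abel, ?_⟩
          rw [mul_add, add_mul, h3, h6]; abel
        zero_mem' := ⟨by simp, by simp, by simp⟩
        smul_mem' := by
          rintro c a ⟨h1, h2, h3⟩
          refine ⟨by rw [mul_smul_comm, h1], by rw [star_smul, h2]; simp, ?_⟩
          rw [mul_smul_comm, smul_mul_assoc, h3, smul_neg] }
    have hpps : star p = p := hpp.isSelfAdjoint.star_eq
    have hN : UClosed Φ (N : Set A) := by
      have h1 := uclosed_skew (Φ := Φ) hP hPl hPr hpp (w := p) (by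
        rw [hpps]; exact hpp.isIdempotentElem.eq) hpp.isIdempotentElem.eq
      have h2 := uclosed_skew (Φ := Φ) hP hPl hPr hpp (w := e) (by
        rw [hes, mul_neg, hpe, neg_neg]) hep
      have eq : {x : A | p * x = x ∧ star (p * x) = -(p * x)} ∩
          {x : A | p * x = x ∧ star (e * x) = -(e * x)} = (N : Set A) := by
        refine Set.ext fun x => ?_
        constructor
        · rintro ⟨⟨h3, h4⟩, -, h5⟩
          rw [h3] at h4
          refine ⟨h3, h4, ?_⟩
          rw [star_mul, h4, hes, mul_neg, neg_mul, neg_neg] at h5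
          rw [h5, neg_neg]
        · rintro ⟨h3, h4, h5⟩
          refine ⟨⟨h3, by rw [h3]; exact h4⟩, h3, ?_⟩
          rw [star_mul, h4, hes, mul_neg, neg_mul, neg_neg, h5, neg_neg]
      have h3 := h1.inter h2
      rwa [eq] at h3
    have htrN : ∀ v ∈ N, v * star v * v ∈ N := by
      rintro v ⟨h1, h2, h3⟩
      have e1 : v * star v * v = -(v * v * v) := by rw [h2, mul_neg, neg_mul]
      rw [e1]
      refine N.neg_mem ⟨?_, ?_, ?_⟩
      · rw [← mul_assoc, ← mul_assoc, h1]
      · simp only [star_mul, h2, mul_neg, neg_mul, mul_assoc, neg_neg]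
      · have h4 : e * (v * v * v) = e * v * v * v := by simp only [mul_assoc]
        have h5 : v * v * v * e = v * v * (v * e) := by simp only [mul_assoc]
        have h6 : v * e = -(e * v) := by rw [h3, neg_neg]
        rw [h4, h3, neg_mul, neg_mul, mul_assoc v e, h3, mul_neg, neg_mul, neg_neg, h5, h6]
        simp only [mul_neg, neg_neg, mul_assoc, h3]
    obtain ⟨j, ⟨hj1, hj2, hj3⟩, hjj, hjext⟩ := exists_tripotent hN htrN
    have hj0 : j ≠ 0 := ne_zero_of_extreme hjext (x := x₀) ⟨hx1, hx2, hx3⟩ hx4
    set r : A := star j * j with hr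
    have hrp : IsStarProjection r := proj_of_tripotent hjj
    have hr0 : r ≠ 0 := fun h => hj0 (sa_eq_zero (by rw [← hr]; exact h))
    have hjr : j * j = -r := by rw [hr, hj2, neg_mul, neg_neg]
    have hjr' : j * r = j := by rw [hr, ← mul_assoc]; exact hjj
    have hrj : r * j = j := by rw [hcen r hrp, hjr']
    have hrs : star r = r := hrp.isSelfAdjoint.star_eq
    have hrr : r * r = r := hrp.isIdempotentElem.eq
    have hrpr : p * r = r := by
      have h1 : p * (j * j) = j * j := by rw [← mul_assoc, hj1]
      rw [hjr, mul_neg, neg_inj] at h1; exact h1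
    have hcr := hcen r hrp
    -- the new unit
    set e' : A := r * e with he'
    have he's : star e' = -e' := by rw [he', star_mul, hes, hrs, neg_mul, ← hcr]
    have he'e : e' * e' = -r := by
      calc e' * e' = r * (e * r) * e := by rw [he']; simp only [mul_assoc]
        _ = r * (r * e) * e := by rw [hcr e]
        _ = r * r * (e * e) := by simp only [mul_assoc]
        _ = -r := by rw [hrr, hpe, mul_neg, hcr p, hrpr]
    have hre' : r * e' = e' := by rw [he', ← mul_assoc, hrr]
    have he'r : e' * r = e' := by rw [← hcr, hre']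
    have hanti : e' * j = -(j * e') := by
      calc e' * j = r * (e * j) := by rw [he', mul_assoc]
        _ = -(r * j * e) := by rw [hj3, mul_neg, ← mul_assoc]
        _ = -(j * e') := by rw [hcr j, mul_assoc]
    set m : A := e' * j with hm
    have hje' : j * e' = -m := by rw [hanti, neg_neg]
    have hms : star m = -m := by
      rw [hm, star_mul, hj2, he's, mul_neg, neg_mul, neg_neg, hje']
    have hmm : m * m = -r := by
      calc m * m = e' * (j * e') * j := by rw [hm]; simp only [mul_assoc]
        _ = -(e' * e' * (j * j)) := by rw [hje', hm]; simp only [mul_neg, neg_mul, mul_assoc]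
        _ = -r := by rw [he'e, hjr, neg_mul, mul_neg, neg_neg, hrr]
    have hrm : r * m = m := by rw [hm, ← mul_assoc, hre']
    have hmr : m * r = m := by rw [← hcr, hrm]
    refine ⟨r, e', hrp, hr0, he's, he'e, hre', ?_, fun w hw hwr =>
      uclosed_skew hP hPl hPr hrp hw hwr⟩
    intro w hw hwr
    have hrw : r * w = w := by rw [hcr, hwr]
    have hcl : ∀ a : A, star a = -a → a * a = -r → a * r = a →
        UClosed Φ {x : A | r * x = x ∧ star (a * w * x) = -(a * w * x)} := by
      intro a h1 h2 h3
      refine uclosed_skew (Φ := Φ) hP hPl hPr hrp (w := a * w) ?_ ?_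
      · rw [star_mul, h1, mul_assoc, ← mul_assoc w, hw, mul_neg, mul_neg, ← mul_assoc, h3, h2,
          neg_neg]
      · rw [mul_assoc, hwr]
    have h1 := ((hcl e' he's he'e he'r).inter (hcl j hj2 hjr hjr')).inter
      (hcl m hms hmm hmr)
    have eq : ({x : A | r * x = x ∧ star (e' * w * x) = -(e' * w * x)} ∩
        {x : A | r * x = x ∧ star (j * w * x) = -(j * w * x)}) ∩
        {x : A | r * x = x ∧ star (m * w * x) = -(m * w * x)}
        = {x : A | r * x = x ∧ star (w * x) = w * x} := by
      refine Set.ext fun x => ?_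
      constructor
      · rintro ⟨⟨⟨hx, h2⟩, -, h3⟩, -, h4⟩
        refine ⟨hx, ?_⟩
        have hry : r * (w * x) = w * x := by rw [← mul_assoc, hrw]
        rw [mul_assoc] at h2 h3 h4
        have b2 := anticomm_of_skew Φ hA hcen hrp he's he'e hre' hry h2
        have b3 := anticomm_of_skew Φ hA hcen hrp hj2 hjr hrj hry h3
        have b4 := anticomm_of_skew Φ hA hcen hrp hms hmm hrm hry h4
        set k : A := w * x - star (w * x) with hk
        have b3' : k * j = -(j * k) := by rw [b3, neg_neg]
        have b2' : k * e' = -(e' * k) := by rw [b2, neg_neg]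
        have b5 : k * m = m * k := by
          calc k * m = k * e' * j := by rw [hm, ← mul_assoc]
            _ = -(e' * (k * j)) := by rw [b2', neg_mul, mul_assoc]
            _ = e' * j * k := by rw [b3', mul_neg, neg_neg, ← mul_assoc]
            _ = m * k := by rw [hm]
        have b6 : m * k = 0 := by
          have : m * k = -(m * k) := by rw [b5] at b4; exact b4
          have h7 : (2 : ℝ) • (m * k) = 0 := by
            rw [two_smul]
            nth_rewrite 2 [this]
            exact add_neg_cancel _
          rcases smul_eq_zero.mp h7 with h | h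
          · norm_num at h
          · exact h
        have hrk : r * k = k := by
          rw [hk, mul_sub, hry, star_mem_corner hrp hcen hry]
        have b7 : k = 0 := by
          have h8 : m * (m * k) = -k := by rw [← mul_assoc, hmm, neg_mul, hrk]
          rw [b6, mul_zero] at h8
          have := neg_eq_zero.mp h8.symm
          exact this
        exact (sub_eq_zero.mp (hk ▸ b7)).symm
      · rintro ⟨hx, h2⟩
        have hry : r * (w * x) = w * x := by rw [← mul_assoc, hrw]
        refine ⟨⟨⟨hx, ?_⟩, hx, ?_⟩, hx, ?_⟩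
        · rw [mul_assoc]; exact skew_of_sa Φ hA hcen hrp he's he'e hre' hry h2
        · rw [mul_assoc]; exact skew_of_sa Φ hA hcen hrp hj2 hjr hrj hry h2
        · rw [mul_assoc]; exact skew_of_sa Φ hA hcen hrp hms hmm hrm hry h2
    rwa [eq] at h1

end

end Pool.Agent.Work.MP_64e6b8_an
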