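import Pool.Agent.Work.MP_64e6b8_an.CaseTwo

set_option autoImplicit false

namespace Pool.Agent.Work.MP_64e6b8_an

open Filter Topology

universe u v

section

variable {X : Type u} [NormedAddCommGroup X] [NormedSpace ℝ X]
variable {B : Type v} [NonUnitalCStarAlgebra B] {A : NonUnitalStarSubalgebra ℝ B}

/-- the first order perturbation by `x ↦ e x + x e` -/
lemma skew_norm_le_both {e : A} (he : star e = -e) (he1 : ‖e‖ ≤ 1) (t : ℝ) (ht : |t| ≤ 1) (x : A) :
    ‖x + t • (e * x + x * e)‖ ≤ (1 + 4 * t ^ 2) * ‖x‖ := by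
  have h1 := skew_norm_le he t x
  have h2 := skew_norm_le' he t (x + t • (e * x))
  have hx := norm_nonneg x
  have he2 : ‖e‖ ^ 2 ≤ 1 := by nlinarith [norm_nonneg e]
  have ht2 : t ^ 2 ≤ 1 := by
    have := abs_nonneg t
    rw [← sq_abs]; nlinarith
  have ht0 := sq_nonneg t
  have h1' : ‖x + t • (e * x)‖ ≤ (1 + t ^ 2) * ‖x‖ := by
    refine h1.trans ?_
    have : ‖e‖ ^ 2 * t ^ 2 ≤ 1 * t ^ 2 := by gcongr
    nlinarith
  have h2' : ‖x + t • (e * x) + t • ((x + t • (e * x)) * e)‖ ≤ (1 + t ^ 2) * ((1 + t ^ 2) * ‖x‖) := by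
    refine h2.trans ?_
    have h3 : ‖e‖ ^ 2 * t ^ 2 ≤ 1 * t ^ 2 := by gcongr
    have h4 : (1 + ‖e‖ ^ 2 * t ^ 2) ≤ 1 + t ^ 2 := by linarith
    have := norm_nonneg (x + t • (e * x))
    gcongr
  have h3 : ‖t ^ 2 • (e * x * e)‖ ≤ t ^ 2 * ‖x‖ := by
    rw [norm_smul, Real.norm_of_nonneg ht0]
    have : ‖e * x * e‖ ≤ ‖x‖ := by
      calc ‖e * x * e‖ ≤ ‖e * x‖ * ‖e‖ := norm_mul_le _ _
        _ ≤ (‖e‖ * ‖x‖) * ‖e‖ := by gcongr; exact norm_mul_le _ _
        _ ≤ (1 * ‖x‖) * 1 := by gcongr
        _ = ‖x‖ := by ring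
    gcongr
  have e1 : x + t • (e * x + x * e)
      = (x + t • (e * x) + t • ((x + t • (e * x)) * e)) - t ^ 2 • (e * x * e) := by
    rw [add_mul, smul_mul_assoc, smul_add, smul_add, smul_smul, pow_two]
    abel
  rw [e1]
  refine (norm_sub_le _ _).trans ?_
  have h5 : t ^ 2 * t ^ 2 * ‖x‖ ≤ 1 * t ^ 2 * ‖x‖ := by gcongr
  nlinarith [h2', h3, h5]

variable {Φ : (X →L[ℝ] ℝ) ≃ₗᵢ[ℝ] A}

/-- multiplication by the good unit is weak-star continuous on the self-adjoint part of the
corner -/
lemma wlim_unit_mul {r e : A}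
    (hcen : ∀ p : A, IsStarProjection p → ∀ x : A, p * x = x * p)
    (hr : IsStarProjection r) (he : star e = -e) (hee : e * e = -r) (hre : r * e = e)
    (hcomm : ∀ y : A, star y = y → r * y = y → e * y = y * e)
    (hgood : ∀ w : A, w * star w = r → w * r = w →
        UClosed Φ {x : A | r * x = x ∧ star (w * x) = w * x})
    {ι : Type u} (U : Ultrafilter ι) {x : ι → A} {y : A} {C : ℝ}
    (hC : ∀ᶠ i in (U : Filter ι), ‖x i‖ ≤ C)
    (hN : ∀ᶠ i in (U : Filter ι), r * x i = x i ∧ star (x i) = x i)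
    (hx : WLim Φ (U : Filter ι) x y) (he1 : ‖e‖ ≤ 1) :
    r * y = y ∧ star y = y ∧ WLim Φ (U : Filter ι) (fun i => e * x i) (e * y) := by
  have hrs : star r = r := hr.isSelfAdjoint.star_eq
  have hrr : r * r = r := hr.isIdempotentElem.eq
  have her : e * r = e := by rw [← hcen r hr, hre]
  have hC' : ∀ᶠ i in (U : Filter ι), ‖e * x i‖ ≤ C := by
    refine hC.mono fun i hi => ?_
    calc ‖e * x i‖ ≤ ‖e‖ * ‖x i‖ := norm_mul_le _ _
      _ ≤ 1 * ‖x i‖ := by gcongr
      _ ≤ C := by rwa [one_mul]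
  -- the limit of `x` is self-adjoint
  have h1 := hgood r (by rw [hrs, hrr]) hrr ι U x y C hC
    (hN.mono fun i hi => ⟨hi.1, by rw [hi.1, hi.2]⟩) hx
  obtain ⟨h1a, h1b⟩ := h1
  rw [h1a] at h1b
  refine ⟨h1a, h1b, ?_⟩
  obtain ⟨b, hb⟩ := exists_wlim Φ U (fun i => e * x i) hC'
  have h2 := hgood e (by rw [he, mul_neg, hee, neg_neg]) her ι U _ b C hC'
    (hN.mono fun i hi => ⟨by rw [← mul_assoc, hre], by
      rw [← mul_assoc, hee, neg_mul, hi.1, star_neg, hi.2]⟩) hb
  obtain ⟨h2a, h2b⟩ := h2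
  -- `b` is skew
  have h2c : star b = -b := by
    have h3 := hcomm (e * b) h2b (by rw [← mul_assoc, hre])
    -- e (e b) = (e b) e
    have h4 : e * (e * b) = -b := by rw [← mul_assoc, hee, neg_mul, h2a]
    have h5 : e * b * e = -b := by rw [← h3, h4]
    have h6 : star (e * (e * b)) = star (-b) := by rw [h4]
    rw [star_mul, h2b, he, mul_neg, h5, neg_neg, star_neg] at h6
    exact (neg_eq_iff_eq_neg.mpr h6).symm
  -- the diagonal condition
  set c : ℝ := Real.sqrt (1 / 2) with hc
  have hcc : c * c = 1 / 2 := Real.mul_self_sqrt (by norm_num)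
  have hc0 : c ≠ 0 := by
    intro h
    rw [h] at hcc
    norm_num at hcc
  have hw1 : (c • (r - e)) * star (c • (r - e)) = r := by
    have e1 : (r - e) * (r + e) = (2 : ℝ) • r := by
      rw [sub_mul, mul_add, mul_add, hrr, hre, her, hee, two_smul]; abel
    rw [star_smul, star_sub, hrs, he, star_trivial, sub_neg_eq_add, smul_mul_assoc, mul_smul_comm,
      smul_smul, hcc, e1, smul_smul]
    norm_num
  have hw2 : (c • (r - e)) * r = c • (r - e) := by
    rw [smul_mul_assoc, sub_mul, hrr, her]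
  have h3 := hgood (c • (r - e)) hw1 hw2 ι U (fun i => x i + e * x i) (y + b) (C + C)
    (by
      filter_upwards [hC, hC'] with i h5 h6
      exact (norm_add_le _ _).trans (add_le_add h5 h6))
    (hN.mono fun i hi => by
      refine ⟨by rw [mul_add, hi.1, ← mul_assoc, hre], ?_⟩
      have e1 : (c • (r - e)) * (x i + e * x i) = c • ((2 : ℝ) • x i) := by
        rw [smul_mul_assoc, sub_mul, mul_add, mul_add, hi.1, ← mul_assoc, hre, ← mul_assoc, hee,
          neg_mul, hi.1, two_smul]
        congr 1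
        abel
      rw [e1, star_smul, star_smul, hi.2, star_trivial, star_trivial])
    (hx.add hb)
  obtain ⟨-, h3b⟩ := h3
  have h4 : star ((r - e) * (y + b)) = (r - e) * (y + b) := by
    rw [smul_mul_assoc, star_smul, star_trivial] at h3b
    exact (smul_right_injective A hc0) h3b
  have h5 : (r - e) * (y + b) = y + b - e * y - e * b := by
    rw [sub_mul, mul_add, mul_add, h1a, h2a]; abel
  have h6 : star (e * y) = -(e * y) := by
    rw [star_mul, h1b, he, mul_neg, hcomm y h1b h1a]
  rw [h5] at h4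
  simp only [star_add, star_sub, h1b, h2c, h6, h2b] at h4
  have h7 : (2 : ℝ) • (b - e * y) = 0 := by
    have h8 : y + b - e * y - e * b - (y + -b - -(e * y) - e * b) = 0 := by
      rw [h4, sub_self]
    rw [two_smul, ← h8]
    abel
  have h9 : b - e * y = 0 := by
    rcases smul_eq_zero.mp h7 with h | h
    · norm_num at h
    · exact h
  rw [← sub_eq_zero.mp h9]
  exact hb

/-- Case II: all projections are central and there is a non-zero skew element. -/
lemma case_two [CompleteSpace X] (Φ : (X →L[ℝ] ℝ) ≃ₗᵢ[ℝ] A) (hA : IsClosed (A : Set B))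
    (hcen : ∀ p : A, IsStarProjection p → ∀ x : A, p * x = x * p)
    (hsk : ∃ a : A, star a = -a ∧ a ≠ 0) : numericalIndex X = 0 := by
  obtain ⟨r, e, hr, hr0, he, hee, hre, hgood, hgood'⟩ := exists_good_unit Φ hA hcen hsk
  have hrs : star r = r := hr.isSelfAdjoint.star_eq
  have hrr : r * r = r := hr.isIdempotentElem.eq
  have her : e * r = e := by rw [← hcen r hr, hre]
  have he1 : ‖e‖ ≤ 1 := by
    have h1 := sa_norm_star_mul_self e
    rw [he, neg_mul, hee, neg_neg] at h1
    have h2 := sa_norm_proj_le hr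
    nlinarith [norm_nonneg e]
  have hcomm : ∀ y : A, star y = y → r * y = y → e * y = y * e := fun y h1 h2 =>
    comm_of_sa Φ hA hcen hr he hee hre h1 h2
  let S : A →L[ℝ] A := ContinuousLinearMap.mul ℝ A e + (ContinuousLinearMap.mul ℝ A).flip e
  have hS : ∀ x, S x = e * x + x * e := fun x => rfl
  have hemul : ∀ (x : A) {C : ℝ}, ‖x‖ ≤ C → ‖e * x‖ ≤ C := by
    intro x C hi
    calc ‖e * x‖ ≤ ‖e‖ * ‖x‖ := norm_mul_le _ _
      _ ≤ 1 * ‖x‖ := by gcongr
      _ ≤ C := by rwa [one_mul]
  have hmule : ∀ (x : A) {C : ℝ}, ‖x‖ ≤ C → ‖x * e‖ ≤ C := by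
    intro x C hi
    calc ‖x * e‖ ≤ ‖x‖ * ‖e‖ := norm_mul_le _ _
      _ ≤ ‖x‖ * 1 := by gcongr
      _ ≤ C := by rwa [mul_one]
  refine index_zero_of_operator (Φ := Φ) S ?_ ?_ (K := 4) (fun t ht x => ?_)
  · -- continuity
    intro ι U y₀ z₀ C hC₀ hy₀
    -- reduce to the corner
    have hSr : ∀ x, S (r * x) = S x := by
      intro x
      rw [hS, hS, ← mul_assoc, her, hcen r hr x, mul_assoc, hre]
    have hy := ucont_proj_mul (Φ := Φ) hr ι U y₀ z₀ C hC₀ hy₀
    have hC : ∀ᶠ i in (U : Filter ι), ‖r * y₀ i‖ ≤ C :=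
      hC₀.mono fun i hi => (sa_norm_proj_mul_le hr _).trans hi
    have hyr : ∀ i, r * (r * y₀ i) = r * y₀ i := fun i => by rw [← mul_assoc, hrr]
    have hzr : r * (r * z₀) = r * z₀ := by rw [← mul_assoc, hrr]
    rw [← hSr z₀]
    refine WLim.congr' (x := fun i => S (r * y₀ i)) ?_ (Eventually.of_forall fun i => hSr (y₀ i))
    change WLim Φ (U : Filter ι) (fun i => r * y₀ i) (r * z₀) at hy
    generalize hxi : (fun i => r * y₀ i) = x at *
    have hxi' : ∀ i, r * y₀ i = x i := fun i => congrFun hxi i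
    simp only [hxi'] at hC hyr ⊢
    generalize r * z₀ = z at *
    -- decomposition
    let s : A → A := fun x => (1 / 2 : ℝ) • (x + star x)
    let k : A → A := fun x => (1 / 2 : ℝ) • (x - star x)
    let kp : A → A := fun x => (1 / 2 : ℝ) • (k x - e * k x * e)
    let km : A → A := fun x => (1 / 2 : ℝ) • (k x + e * k x * e)
    have hsum : ∀ x, x = s x + kp x + km x := by
      intro x
      show x = (1 / 2 : ℝ) • (x + star x) + (1 / 2 : ℝ) • (k x - e * k x * e)
        + (1 / 2 : ℝ) • (k x + e * k x * e)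
      have h1 : k x = (1 / 2 : ℝ) • (x - star x) := rfl
      generalize e * k x * e = q
      rw [h1]
      module
    have hss : ∀ x, star (s x) = s x := by
      intro x
      show star ((1 / 2 : ℝ) • (x + star x)) = (1 / 2 : ℝ) • (x + star x)
      rw [star_smul, star_add, star_star, star_trivial, add_comm]
    have hks : ∀ x, star (k x) = -k x := by
      intro x
      show star ((1 / 2 : ℝ) • (x - star x)) = -((1 / 2 : ℝ) • (x - star x))
      rw [star_smul, star_sub, star_star, star_trivial, ← smul_neg, neg_sub]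
    have hrstar : ∀ x, r * x = x → r * star x = star x := fun x hx =>
      star_mem_corner hr hcen hx
    have hrs' : ∀ x, r * x = x → r * s x = s x := by
      intro x hx
      show r * ((1 / 2 : ℝ) • (x + star x)) = (1 / 2 : ℝ) • (x + star x)
      rw [mul_smul_comm, mul_add, hx, hrstar x hx]
    have hrk : ∀ x, r * x = x → r * k x = k x := by
      intro x hx
      show r * ((1 / 2 : ℝ) • (x - star x)) = (1 / 2 : ℝ) • (x - star x)
      rw [mul_smul_comm, mul_sub, hx, hrstar x hx]
    have hreke : ∀ x, r * (e * k x * e) = e * k x * e := by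
      intro x
      rw [← mul_assoc, ← mul_assoc, hre]
    have hrkp : ∀ x, r * x = x → r * kp x = kp x := by
      intro x hx
      show r * ((1 / 2 : ℝ) • (k x - e * k x * e)) = (1 / 2 : ℝ) • (k x - e * k x * e)
      rw [mul_smul_comm, mul_sub, hrk x hx, hreke]
    have hrkm : ∀ x, r * x = x → r * km x = km x := by
      intro x hx
      show r * ((1 / 2 : ℝ) • (k x + e * k x * e)) = (1 / 2 : ℝ) • (k x + e * k x * e)
      rw [mul_smul_comm, mul_add, hrk x hx, hreke]
    have heeke : ∀ x, r * x = x → e * (e * k x * e) = -(k x * e) := by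
      intro x hx
      rw [← mul_assoc, ← mul_assoc, hee, neg_mul, hrk x hx, neg_mul]
    have hekp : ∀ x, r * x = x → e * kp x = (1 / 2 : ℝ) • (e * k x + k x * e) := by
      intro x hx
      show e * ((1 / 2 : ℝ) • (k x - e * k x * e)) = _
      rw [mul_smul_comm, mul_sub, heeke x hx, sub_neg_eq_add]
    have hekm : ∀ x, r * x = x → e * km x = (1 / 2 : ℝ) • (e * k x - k x * e) := by
      intro x hx
      show e * ((1 / 2 : ℝ) • (k x + e * k x * e)) = _
      rw [mul_smul_comm, mul_add, heeke x hx, ← sub_eq_add_neg]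
    have hstar1 : ∀ x, star (e * k x) = k x * e := by
      intro x
      rw [star_mul, hks, he, mul_neg, neg_mul, neg_neg]
    have hstar2 : ∀ x, star (k x * e) = e * k x := by
      intro x
      rw [star_mul, hks, he, mul_neg, neg_mul, neg_neg]
    have hstar3 : ∀ x, star (e * k x * e) = -(e * k x * e) := by
      intro x
      rw [star_mul, hstar1, he, neg_mul, mul_assoc]
    have hkpsa : ∀ x, r * x = x → star (e * kp x) = e * kp x := by
      intro x hx
      rw [hekp x hx, star_smul, star_add, hstar1, hstar2, star_trivial, add_comm]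
    have hkmsk : ∀ x, r * x = x → star (e * km x) = -(e * km x) := by
      intro x hx
      rw [hekm x hx, star_smul, star_sub, hstar1, hstar2, star_trivial, ← smul_neg, neg_sub]
    have hkms : ∀ x, star (km x) = -km x := by
      intro x
      show star ((1 / 2 : ℝ) • (k x + e * k x * e)) = -((1 / 2 : ℝ) • (k x + e * k x * e))
      rw [star_smul, star_add, hks, hstar3, star_trivial, ← neg_add, smul_neg]
    -- values of S
    have hS1 : ∀ y, star y = y → r * y = y → S y = (2 : ℝ) • (e * y) := by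
      intro y h1 h2
      rw [hS, ← hcomm y h1 h2, two_smul]
    have hS2 : ∀ y, star (e * y) = e * y → r * y = y → S y = (2 : ℝ) • (e * y) := by
      intro y h1 h2
      have h3 := hcomm (e * y) h1 (by rw [← mul_assoc, hre])
      have h4 : e * (e * y) = -y := by rw [← mul_assoc, hee, neg_mul, h2]
      have h5 : e * y * e = -y := by rw [← h3, h4]
      have h6 : e * (e * y * e) = e * -y := by rw [h5]
      have h7 : e * (e * y * e) = -(y * e) := by
        rw [← mul_assoc, ← mul_assoc, hee, neg_mul, h2, neg_mul]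
      rw [h7, mul_neg, neg_inj] at h6
      rw [hS, h6, two_smul]
    have hS3 : ∀ y, star y = -y → star (e * y) = -(e * y) → S y = 0 := by
      intro y h1 h2
      rw [star_mul, h1, he, mul_neg, neg_mul, neg_neg] at h2
      rw [hS, h2, add_neg_cancel]
    -- norm bounds
    have hns : ∀ x {C : ℝ}, ‖x‖ ≤ C → ‖s x‖ ≤ C := by
      intro x C hx
      show ‖(1 / 2 : ℝ) • (x + star x)‖ ≤ C
      rw [norm_smul, Real.norm_of_nonneg (by norm_num)]
      have := norm_add_le x (star x)
      rw [sa_norm_star] at this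
      linarith
    have hnk : ∀ x {C : ℝ}, ‖x‖ ≤ C → ‖k x‖ ≤ C := by
      intro x C hx
      show ‖(1 / 2 : ℝ) • (x - star x)‖ ≤ C
      rw [norm_smul, Real.norm_of_nonneg (by norm_num)]
      have := norm_sub_le x (star x)
      rw [sa_norm_star] at this
      linarith
    have hneke : ∀ x {C : ℝ}, ‖x‖ ≤ C → ‖e * k x * e‖ ≤ C := fun x C hx =>
      hmule _ (hemul _ (hnk x hx))
    have hnkp : ∀ x {C : ℝ}, ‖x‖ ≤ C → ‖kp x‖ ≤ C := by
      intro x C hx
      show ‖(1 / 2 : ℝ) • (k x - e * k x * e)‖ ≤ C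
      rw [norm_smul, Real.norm_of_nonneg (by norm_num)]
      have := norm_sub_le (k x) (e * k x * e)
      have h1 := hneke x hx
      have h2 := hnk x hx
      linarith
    have hnkm : ∀ x {C : ℝ}, ‖x‖ ≤ C → ‖km x‖ ≤ C := by
      intro x C hx
      show ‖(1 / 2 : ℝ) • (k x + e * k x * e)‖ ≤ C
      rw [norm_smul, Real.norm_of_nonneg (by norm_num)]
      have := norm_add_le (k x) (e * k x * e)
      have h1 := hneke x hx
      have h2 := hnk x hx
      linarith
    -- limits
    obtain ⟨a, ha⟩ := exists_wlim Φ U (fun i => s (x i)) (hC.mono fun i hi => hns (x i) hi)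
    obtain ⟨b, hb⟩ := exists_wlim Φ U (fun i => kp (x i)) (hC.mono fun i hi => hnkp (x i) hi)
    obtain ⟨c, hc⟩ := exists_wlim Φ U (fun i => km (x i)) (hC.mono fun i hi => hnkm (x i) hi)
    have habc : z = a + b + c := by
      refine hy.unique (((ha.add hb).add hc).congr' (Eventually.of_forall fun i => ?_))
      exact (hsum (x i)).symm
    obtain ⟨ha1, ha2, ha3⟩ := wlim_unit_mul hcen hr he hee hre hcomm hgood U
      (hC.mono fun i hi => hns (x i) hi)
      (Eventually.of_forall fun i => ⟨hrs' (x i) (hyr i), hss (x i)⟩) ha he1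
    -- `b`
    have hCe : ∀ᶠ i in (U : Filter ι), ‖e * kp (x i)‖ ≤ C :=
      hC.mono fun i hi => hemul _ (hnkp (x i) hi)
    obtain ⟨a', ha'⟩ := exists_wlim Φ U (fun i => e * kp (x i)) hCe
    obtain ⟨hb1, hb2, hb3⟩ := wlim_unit_mul hcen hr he hee hre hcomm hgood U hCe
      (Eventually.of_forall fun i => ⟨by rw [← mul_assoc, hre], hkpsa (x i) (hyr i)⟩) ha' he1
    have hb4 : WLim Φ (U : Filter ι) (fun i => e * (e * kp (x i))) (-b) := by
      refine hb.neg.congr' (Eventually.of_forall fun i => ?_)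
      rw [← mul_assoc, hee, neg_mul, hrkp (x i) (hyr i)]
    have hb5 : e * a' = -b := hb3.unique hb4
    have hb6 : e * b = a' := by
      have h1 : e * (e * a') = -(e * b) := by rw [hb5, mul_neg]
      rw [← mul_assoc, hee, neg_mul, hb1, neg_inj] at h1
      exact h1.symm
    have hrb : r * b = b := by
      have h1 : r * (e * a') = e * a' := by rw [← mul_assoc, hre]
      rw [hb5, mul_neg, neg_inj] at h1
      exact h1
    have hSb : S b = (2 : ℝ) • (e * b) := hS2 b (by rw [hb6]; exact hb2) hrb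
    -- `c`
    have hSc : S c = 0 := by
      have h1 := hgood' r (by rw [hrs, hrr]) hrr ι U _ c C (hC.mono fun i hi => hnkm (x i) hi)
        (Eventually.of_forall fun i => ⟨hrkm (x i) (hyr i), by
          rw [hrkm (x i) (hyr i), hkms]⟩) hc
      have h2 := hgood' e (by rw [he, mul_neg, hee, neg_neg]) her ι U _ c C
        (hC.mono fun i hi => hnkm (x i) hi)
        (Eventually.of_forall fun i => ⟨hrkm (x i) (hyr i), hkmsk (x i) (hyr i)⟩) hc
      refine hS3 c ?_ h2.2
      have h3 := h1.2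
      rwa [h1.1] at h3
    have hSz : S z = (2 : ℝ) • (e * a) + (2 : ℝ) • a' := by
      rw [habc, map_add, map_add, hS1 a ha2 ha1, hSb, hSc, hb6, add_zero]
    rw [hSz]
    refine ((ha3.smul 2).add (ha'.smul 2)).congr' (Eventually.of_forall fun i => ?_)
    show (2 : ℝ) • (e * s (x i)) + (2 : ℝ) • (e * kp (x i)) = S (x i)
    conv_rhs => rw [hsum (x i), map_add, map_add,
      hS1 _ (hss (x i)) (hrs' (x i) (hyr i)), hS2 _ (hkpsa (x i) (hyr i)) (hrkp (x i) (hyr i)),
      hS3 _ (hkms (x i)) (hkmsk (x i) (hyr i)), add_zero]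
  · -- non-zero
    intro h
    have h1 : S e = 0 := by rw [h]; rfl
    rw [hS, hee] at h1
    apply hr0
    have h2 : (-2 : ℝ) • r = 0 := by
      rw [neg_smul, two_smul, neg_add]; exact h1
    rcases smul_eq_zero.mp h2 with h | h
    · norm_num at h
    · exact h
  · rw [hS]
    exact skew_norm_le_both he he1 t ht x

end

end Pool.Agent.Work.MP_64e6b8_an
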