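import Mathlib

/-!
# Numerical range, numerical radius and numerical index of a real Banach space
-/

set_option autoImplicit false

namespace Pool.Agent.Work.MP_64e6b8_an

/-- The numerical range `V(T) = {f (T x) : ‖x‖ = ‖f‖ = f x = 1}` of a bounded operator `T` on a
real normed space `X`; here `f` runs over the dual of `X`. -/
def numericalRange {X : Type*} [NormedAddCommGroup X] [NormedSpace ℝ X] (T : X →L[ℝ] X) :
    Set ℝ :=
  {r | ∃ (x : X) (f : X →L[ℝ] ℝ), ‖x‖ = 1 ∧ ‖f‖ = 1 ∧ f x = 1 ∧ f (T x) = r}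

/-- The numerical radius `v(T) = sup {|r| : r ∈ V(T)}`. -/
noncomputable def numericalRadius {X : Type*} [NormedAddCommGroup X] [NormedSpace ℝ X]
    (T : X →L[ℝ] X) : ℝ :=
  sSup {s | ∃ r ∈ numericalRange T, s = |r|}

/-- The numerical index `n(X) = inf {v(T) : T ∈ L(X), ‖T‖ = 1}` of a real normed space `X`. -/
noncomputable def numericalIndex (X : Type*) [NormedAddCommGroup X] [NormedSpace ℝ X] : ℝ :=
  sInf {s | ∃ T : X →L[ℝ] X, ‖T‖ = 1 ∧ s = numericalRadius T}

end Pool.Agent.Work.MP_64e6b8_an
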