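import Mathlib

set_option autoImplicit false

namespace Pool.Agent.Work.MP_64e6b8_an

open Filter Topology

universe u v

section

variable {X : Type u} [NormedAddCommGroup X] [NormedSpace ℝ X]
variable {Y : Type v} [NormedAddCommGroup Y] [NormedSpace ℝ Y]
variable (Φ : (X →L[ℝ] ℝ) ≃ₗᵢ[ℝ] Y)

/-- `x i → y` in the weak-star topology that `Y` gets from its predual `X`. -/
def WLim {ι : Type*} (U : Filter ι) (x : ι → Y) (y : Y) : Prop :=
  ∀ ξ : X, Tendsto (fun i => Φ.symm (x i) ξ) U (𝓝 (Φ.symm y ξ))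

variable {Φ}

lemma WLim.congr' {ι : Type*} {U : Filter ι} {x x' : ι → Y} {y : Y} (h : WLim Φ U x y)
    (e : ∀ᶠ i in U, x i = x' i) : WLim Φ U x' y := fun ξ =>
  (h ξ).congr' (e.mono fun i hi => by rw [hi])

lemma wlim_const {ι : Type*} (U : Filter ι) (y : Y) : WLim Φ U (fun _ => y) y := fun _ =>
  tendsto_const_nhds

lemma WLim.add {ι : Type*} {U : Filter ι} {x x' : ι → Y} {y y' : Y} (h : WLim Φ U x y)
    (h' : WLim Φ U x' y') : WLim Φ U (fun i => x i + x' i) (y + y') := fun ξ => by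
  simpa using (h ξ).add (h' ξ)

lemma WLim.sub {ι : Type*} {U : Filter ι} {x x' : ι → Y} {y y' : Y} (h : WLim Φ U x y)
    (h' : WLim Φ U x' y') : WLim Φ U (fun i => x i - x' i) (y - y') := fun ξ => by
  simpa using (h ξ).sub (h' ξ)

lemma WLim.smul {ι : Type*} {U : Filter ι} {x : ι → Y} {y : Y} (h : WLim Φ U x y) (c : ℝ) :
    WLim Φ U (fun i => c • x i) (c • y) := fun ξ => by
  simpa using (h ξ).const_mul c

lemma WLim.neg {ι : Type*} {U : Filter ι} {x : ι → Y} {y : Y} (h : WLim Φ U x y) :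
    WLim Φ U (fun i => - x i) (- y) := fun ξ => by
  simpa using (h ξ).neg

lemma WLim.unique {ι : Type*} {U : Filter ι} [U.NeBot] {x : ι → Y} {y y' : Y}
    (h : WLim Φ U x y) (h' : WLim Φ U x y') : y = y' := by
  apply Φ.symm.injective
  ext ξ
  exact tendsto_nhds_unique (h ξ) (h' ξ)

lemma WLim.norm_le {ι : Type*} {U : Filter ι} [U.NeBot] {x : ι → Y} {y : Y}
    (h : WLim Φ U x y) {C : ℝ} (hC : ∀ᶠ i in U, ‖x i‖ ≤ C) : ‖y‖ ≤ C := by
  have hC0 : 0 ≤ C := by
    obtain ⟨i, hi⟩ := hC.exists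
    exact (norm_nonneg _).trans hi
  rw [← Φ.symm.norm_map]
  refine ContinuousLinearMap.opNorm_le_bound _ hC0 (fun ξ => ?_)
  refine le_of_tendsto (h ξ).norm (hC.mono fun i hi => ?_)
  calc ‖Φ.symm (x i) ξ‖ ≤ ‖Φ.symm (x i)‖ * ‖ξ‖ := ContinuousLinearMap.le_opNorm _ _
    _ ≤ C * ‖ξ‖ := by rw [Φ.symm.norm_map]; gcongr

variable (Φ) in
lemma exists_wlim {ι : Type*} (U : Ultrafilter ι) (x : ι → Y) {C : ℝ}
    (hC : ∀ᶠ i in (U : Filter ι), ‖x i‖ ≤ C) : ∃ y, WLim Φ (U : Filter ι) x y := by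
  have hK := WeakDual.isCompact_closedBall (𝕜 := ℝ) (E := X) 0 C
  let f : ι → WeakDual ℝ X := fun i => StrongDual.toWeakDual (Φ.symm (x i))
  have hf : Filter.map f (U : Filter ι) ≤
      𝓟 (WeakDual.toStrongDual ⁻¹' Metric.closedBall (0 : StrongDual ℝ X) C) := by
    rw [le_principal_iff, mem_map]
    refine hC.mono fun i hi => ?_
    show Φ.symm (x i) ∈ Metric.closedBall (0 : StrongDual ℝ X) C
    rw [mem_closedBall_zero_iff, Φ.symm.norm_map]
    exact hi
  obtain ⟨g, -, hg⟩ := hK.ultrafilter_le_nhds (U.map f) hf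
  refine ⟨Φ (WeakDual.toStrongDual g), fun ξ => ?_⟩
  have h1 : Tendsto f (U : Filter ι) (𝓝 g) := hg
  have h2 := ((WeakDual.eval_continuous ξ).tendsto g).comp h1
  rw [Φ.symm_apply_apply]
  exact h2

variable (Φ)

/-- bounded weak-star closedness (with ultrafilters indexed by types in the universe of `X`) -/
def UClosed (N : Set Y) : Prop :=
  ∀ (ι : Type u) (U : Ultrafilter ι) (x : ι → Y) (y : Y) (C : ℝ),
    (∀ᶠ i in (U : Filter ι), ‖x i‖ ≤ C) → (∀ᶠ i in (U : Filter ι), x i ∈ N) →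
    WLim Φ (U : Filter ι) x y → y ∈ N

/-- bounded weak-star continuity (with ultrafilters indexed by types in the universe of `X`) -/
def UCont (S : Y → Y) : Prop :=
  ∀ (ι : Type u) (U : Ultrafilter ι) (x : ι → Y) (y : Y) (C : ℝ),
    (∀ᶠ i in (U : Filter ι), ‖x i‖ ≤ C) →
    WLim Φ (U : Filter ι) x y → WLim Φ (U : Filter ι) (fun i => S (x i)) (S y)

variable {Φ}

lemma UClosed.inter {N N' : Set Y} (h : UClosed Φ N) (h' : UClosed Φ N') :
    UClosed Φ (N ∩ N') := fun ι U x y C hC hN hx =>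
  ⟨h ι U x y C hC (hN.mono fun _ hi => hi.1) hx, h' ι U x y C hC (hN.mono fun _ hi => hi.2) hx⟩

/-- Krein–Milman: a bounded-weak-star closed subspace has an extreme point in its unit ball. -/
lemma exists_extreme {N : Submodule ℝ Y} (hN : UClosed Φ (N : Set Y)) :
    ∃ v ∈ N, ‖v‖ ≤ 1 ∧ ∀ a ∈ N, ‖v + a‖ ≤ 1 → ‖v - a‖ ≤ 1 → a = 0 := by
  let K : Set (WeakDual ℝ X) :=
    {g | ‖WeakDual.toStrongDual g‖ ≤ 1 ∧ Φ (WeakDual.toStrongDual g) ∈ N}
  have hKc : IsCompact K := by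
    rw [isCompact_iff_ultrafilter_le_nhds]
    intro U hU
    have hball : (U : Filter (WeakDual ℝ X)) ≤
        𝓟 (WeakDual.toStrongDual ⁻¹' Metric.closedBall (0 : StrongDual ℝ X) 1) := by
      refine hU.trans (principal_mono.mpr ?_)
      intro g hg
      show WeakDual.toStrongDual g ∈ Metric.closedBall (0 : StrongDual ℝ X) 1
      rw [mem_closedBall_zero_iff]
      exact hg.1
    obtain ⟨g, hg1, hg2⟩ :=
      (WeakDual.isCompact_closedBall (𝕜 := ℝ) (E := X) 0 1).ultrafilter_le_nhds U hball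
    refine ⟨g, ⟨?_, ?_⟩, hg2⟩
    · have : WeakDual.toStrongDual g ∈ Metric.closedBall (0 : StrongDual ℝ X) 1 := hg1
      rwa [mem_closedBall_zero_iff] at this
    · have hev : ∀ᶠ f in (U : Filter (WeakDual ℝ X)), f ∈ K := by
        rw [le_principal_iff] at hU
        exact hU
      refine hN (WeakDual ℝ X) U (fun f => Φ (WeakDual.toStrongDual f)) _ 1
        (hev.mono fun f hf => by rw [Φ.norm_map]; exact hf.1) (hev.mono fun f hf => hf.2) ?_
      intro ξ
      simp only [Φ.symm_apply_apply]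
      exact ((WeakDual.eval_continuous ξ).tendsto g).mono_left hg2
  have hKne : K.Nonempty := ⟨0, by
    refine ⟨?_, ?_⟩
    · show ‖(0 : StrongDual ℝ X)‖ ≤ 1
      simp
    · show Φ (0 : StrongDual ℝ X) ∈ N
      rw [map_zero]
      exact zero_mem N⟩
  have : LocallyConvexSpace ℝ (WeakDual ℝ X) :=
    (WeakDual.withSeminorms (𝕜 := ℝ) (E := X)).toLocallyConvexSpace
  obtain ⟨g, hg⟩ := hKc.extremePoints_nonempty hKne
  refine ⟨Φ (WeakDual.toStrongDual g), hg.1.2, by rw [Φ.norm_map]; exact hg.1.1, ?_⟩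
  intro a ha h1 h2
  set b : StrongDual ℝ X := Φ.symm a with hb
  have hΦb : Φ b = a := Φ.apply_symm_apply a
  have hplus : (g + StrongDual.toWeakDual b : WeakDual ℝ X) ∈ K := by
    refine ⟨?_, ?_⟩
    · show ‖WeakDual.toStrongDual g + b‖ ≤ 1
      rw [← Φ.norm_map, map_add, hΦb]
      exact h1
    · show Φ (WeakDual.toStrongDual g + b) ∈ N
      rw [map_add, hΦb]
      exact add_mem hg.1.2 ha
  have hminus : (g - StrongDual.toWeakDual b : WeakDual ℝ X) ∈ K := by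
    refine ⟨?_, ?_⟩
    · show ‖WeakDual.toStrongDual g - b‖ ≤ 1
      rw [← Φ.norm_map, map_sub, hΦb]
      exact h2
    · show Φ (WeakDual.toStrongDual g - b) ∈ N
      rw [map_sub, hΦb]
      exact sub_mem hg.1.2 ha
  have hmid : g ∈ openSegment ℝ (g + StrongDual.toWeakDual b : WeakDual ℝ X)
      (g - StrongDual.toWeakDual b) := by
    refine ⟨1 / 2, 1 / 2, by norm_num, by norm_num, by norm_num, ?_⟩
    module
  have := hg.2 hplus hminus hmid
  have hb0 : StrongDual.toWeakDual b = (0 : WeakDual ℝ X) := by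
    have h3 : g + StrongDual.toWeakDual b = g := this
    simpa using h3
  have hb0' : b = 0 := by
    have : StrongDual.toWeakDual b = StrongDual.toWeakDual (0 : StrongDual ℝ X) := by
      rw [hb0, map_zero]
    exact StrongDual.toWeakDual.injective this
  rw [← hΦb, hb0', map_zero]

/-- A functional on the dual which is finitely small is an evaluation, up to `ε`. -/
lemma exists_near_eval (F : (X →L[ℝ] ℝ) →L[ℝ] ℝ) {ε : ℝ} (hε : 0 ≤ ε) (s : Finset X)
    (h : ∀ g : X →L[ℝ] ℝ, (∀ ξ ∈ s, g ξ = 0) → ‖F g‖ ≤ ε * ‖g‖) :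
    ∃ ξ : X, ∀ g : X →L[ℝ] ℝ, ‖F g - g ξ‖ ≤ ε * ‖g‖ := by
  let J := NormedSpace.inclusionInDoubleDualLi (E := X) ℝ
  let N : Submodule ℝ (StrongDual ℝ X) :=
    { carrier := {g | ∀ ξ ∈ s, g ξ = 0}
      add_mem' := fun {a b} ha hb ξ hξ => by simp [ha ξ hξ, hb ξ hξ]
      zero_mem' := fun ξ _ => rfl
      smul_mem' := fun c a ha ξ hξ => by simp [ha ξ hξ] }
  let F₀ : N →ₗ[ℝ] ℝ := (F : StrongDual ℝ X →ₗ[ℝ] ℝ).domRestrict N
  obtain ⟨G, hG1, hG2⟩ := exists_extension_norm_eq N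
    (F₀.mkContinuous ε (fun g => h g g.2))
  have hGε : ‖G‖ ≤ ε := by
    rw [hG2]
    exact LinearMap.mkContinuous_norm_le _ hε _
  have hker : ⨅ ξ : s, LinearMap.ker
      ((J (ξ : X) : StrongDual ℝ X →L[ℝ] ℝ) : StrongDual ℝ X →ₗ[ℝ] ℝ) ≤
      LinearMap.ker ((F - G : StrongDual ℝ X →L[ℝ] ℝ) : StrongDual ℝ X →ₗ[ℝ] ℝ) := by
    intro g hg
    have hgN : g ∈ N := by
      intro ξ hξ
      have := (Submodule.mem_iInf _).mp hg ⟨ξ, hξ⟩
      exact this
    have h1 := hG1 ⟨g, hgN⟩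
    rw [LinearMap.mem_ker]
    show F g - G g = 0
    rw [h1]
    exact sub_self _
  have hspan := mem_span_of_iInf_ker_le_ker hker
  have hle : Submodule.span ℝ (Set.range fun ξ : s =>
      ((J (ξ : X) : StrongDual ℝ X →L[ℝ] ℝ) : StrongDual ℝ X →ₗ[ℝ] ℝ)) ≤
      LinearMap.range ((ContinuousLinearMap.coeLM ℝ :
        (StrongDual ℝ X →L[ℝ] ℝ) →ₗ[ℝ] (StrongDual ℝ X →ₗ[ℝ] ℝ)).comp J.toLinearMap) := by
    rw [Submodule.span_le]
    rintro _ ⟨ξ, rfl⟩
    exact ⟨ξ, rfl⟩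
  obtain ⟨ξ, hξ⟩ := hle hspan
  refine ⟨ξ, fun g => ?_⟩
  have hFG : F g - g ξ = G g := by
    have := LinearMap.congr_fun hξ g
    have h2 : g ξ = F g - G g := this
    rw [h2]
    ring
  rw [hFG]
  exact (G.le_opNorm g).trans (mul_le_mul_of_nonneg_right hGε (norm_nonneg g))

/-- A functional on the dual which is a norm limit of evaluations is an evaluation. -/
lemma exists_eq_eval [CompleteSpace X] (F : (X →L[ℝ] ℝ) →L[ℝ] ℝ)
    (h : ∀ ε : ℝ, 0 < ε → ∃ ξ : X, ∀ g : X →L[ℝ] ℝ, ‖F g - g ξ‖ ≤ ε * ‖g‖) :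
    ∃ ξ : X, ∀ g : X →L[ℝ] ℝ, F g = g ξ := by
  choose ζ hζ using fun n : ℕ => h (1 / (n + 1)) (by positivity)
  have hcau : CauchySeq ζ := by
    refine Metric.cauchySeq_iff'.mpr (fun ε hε => ?_)
    obtain ⟨N, hN⟩ := exists_nat_one_div_lt (half_pos hε)
    refine ⟨N, fun n hn => ?_⟩
    have h1 : ‖ζ n - ζ N‖ ≤ 1 / (n + 1) + 1 / (N + 1) := by
      refine NormedSpace.norm_le_dual_bound ℝ _ (by positivity) (fun g => ?_)
      have : g (ζ n - ζ N) = (F g - g (ζ N)) - (F g - g (ζ n)) := by rw [map_sub]; ring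
      rw [this, add_mul, add_comm]
      exact (norm_sub_le _ _).trans (add_le_add (hζ N g) (hζ n g))
    have h2 : (1 : ℝ) / (n + 1) ≤ 1 / (N + 1) := by
      have : (N : ℝ) ≤ n := by exact_mod_cast hn
      gcongr
    rw [dist_eq_norm]
    linarith
  obtain ⟨ξ, hξ⟩ := cauchySeq_tendsto_of_complete hcau
  refine ⟨ξ, fun g => ?_⟩
  have h1 : Tendsto (fun n => g (ζ n)) atTop (𝓝 (g ξ)) := (g.continuous.tendsto ξ).comp hξ
  have h2 : Tendsto (fun n => g (ζ n)) atTop (𝓝 (F g)) := by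
    rw [tendsto_iff_norm_sub_tendsto_zero]
    have h3 : Tendsto (fun n : ℕ => (1 / ((n : ℝ) + 1)) * ‖g‖) atTop (𝓝 0) := by
      have := (tendsto_one_div_add_atTop_nhds_zero_nat (𝕜 := ℝ)).mul_const ‖g‖
      simpa using this
    refine squeeze_zero (fun _ => norm_nonneg _) (fun n => ?_) h3
    rw [norm_sub_rev]
    exact hζ n g
  exact tendsto_nhds_unique h2 h1

/-- A bounded-weak-star continuous operator on `Y = X*` is an adjoint. -/
lemma exists_preadjoint [CompleteSpace X] (S : Y →L[ℝ] Y) (hS : UCont Φ S) :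
    ∃ T : X →L[ℝ] X, ∀ (y : Y) (ξ : X), Φ.symm (S y) ξ = Φ.symm y (T ξ) := by
  -- the bidual adjoint restricted to `X`
  let R : X → ((X →L[ℝ] ℝ) →L[ℝ] ℝ) := fun ξ =>
    (NormedSpace.inclusionInDoubleDual ℝ X ξ).comp
      ((Φ.symm : Y →L[ℝ] (X →L[ℝ] ℝ)).comp (S.comp (Φ : (X →L[ℝ] ℝ) →L[ℝ] Y)))
  have hR : ∀ ξ g, R ξ g = Φ.symm (S (Φ g)) ξ := fun ξ g => rfl
  have hmem : ∀ ξ, ∃ ζ : X, ∀ g : X →L[ℝ] ℝ, R ξ g = g ζ := by
    intro ξ
    refine exists_eq_eval (R ξ) (fun ε hε => ?_)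
    have hfin : ∃ s : Finset X, ∀ g : X →L[ℝ] ℝ, (∀ ζ ∈ s, g ζ = 0) →
        ‖R ξ g‖ ≤ ε * ‖g‖ := by
      by_contra hcon
      push Not at hcon
      choose g hg0 hg1 using hcon
      have hgpos : ∀ s, 0 < ‖g s‖ := by
        intro s
        rw [norm_pos_iff]
        intro h0
        have := hg1 s
        rw [h0, map_zero, norm_zero, norm_zero, mul_zero] at this
        exact lt_irrefl _ this
      let x : Finset X → Y := fun s => Φ (‖g s‖⁻¹ • g s)
      let U : Ultrafilter (Finset X) := Ultrafilter.of atTop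
      have hU : (U : Filter (Finset X)) ≤ atTop := Ultrafilter.of_le _
      have hx1 : ∀ s, ‖x s‖ ≤ 1 := by
        intro s
        rw [Φ.norm_map, norm_smul, norm_inv, norm_norm, inv_mul_cancel₀ (hgpos s).ne']
      have hx0 : WLim Φ (U : Filter (Finset X)) x 0 := by
        intro ζ
        rw [map_zero]
        refine (tendsto_const_nhds (x := (0 : ℝ))).congr' ?_
        refine hU ?_
        filter_upwards [eventually_ge_atTop ({ζ} : Finset X)] with s hs
        have hζ : ζ ∈ s := hs (Finset.mem_singleton_self ζ)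
        show 0 = (Φ.symm (Φ (‖g s‖⁻¹ • g s))) ζ
        rw [Φ.symm_apply_apply]
        simp [hg0 s ζ hζ]
      have hlim := hS (Finset X) U x 0 1 (Eventually.of_forall hx1) hx0 ξ
      rw [map_zero, map_zero] at hlim
      have hge : ∀ s, ε ≤ ‖Φ.symm (S (x s)) ξ‖ := by
        intro s
        have e1 : Φ.symm (S (x s)) ξ = ‖g s‖⁻¹ * R ξ (g s) := by
          rw [hR]
          show Φ.symm (S (Φ (‖g s‖⁻¹ • g s))) ξ = _
          rw [map_smul, map_smul, map_smul]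
          rfl
        rw [e1, norm_mul, norm_inv, norm_norm]
        have := hg1 s
        calc ε = ‖g s‖⁻¹ * (ε * ‖g s‖) := by
              field_simp [(hgpos s).ne']
          _ ≤ ‖g s‖⁻¹ * ‖R ξ (g s)‖ := by
              have := this.le
              have := inv_nonneg.mpr (hgpos s).le
              gcongr
      have h0 := hlim.norm
      have h1 : ‖(0 : X →L[ℝ] ℝ) ξ‖ = 0 := by simp
      rw [h1] at h0
      have := ge_of_tendsto h0 (Eventually.of_forall hge)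
      linarith
    obtain ⟨s, hs⟩ := hfin
    exact exists_near_eval (R ξ) hε.le s hs
  choose T hT using hmem
  have hinj : ∀ ξ η : X, (∀ g : X →L[ℝ] ℝ, g ξ = g η) → ξ = η := by
    intro ξ η h
    apply (NormedSpace.inclusionInDoubleDualLi (E := X) ℝ).injective
    ext g
    exact h g
  have hnorm : ∀ ξ, ‖T ξ‖ ≤ ‖S‖ * ‖ξ‖ := by
    intro ξ
    refine NormedSpace.norm_le_dual_bound ℝ _ (by positivity) (fun g => ?_)
    rw [← hT, hR]
    calc ‖(Φ.symm (S (Φ g))) ξ‖ ≤ ‖Φ.symm (S (Φ g))‖ * ‖ξ‖ := ContinuousLinearMap.le_opNorm _ _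
      _ ≤ (‖S‖ * ‖g‖) * ‖ξ‖ := by
          rw [Φ.symm.norm_map]
          gcongr
          refine (S.le_opNorm _).trans ?_
          rw [Φ.norm_map]
      _ = ‖S‖ * ‖ξ‖ * ‖g‖ := by ring
  let T₀ : X →ₗ[ℝ] X :=
    { toFun := T
      map_add' := fun ξ η => hinj _ _ fun g => by
        rw [map_add, ← hT, ← hT, ← hT, hR, hR, hR, map_add]
      map_smul' := fun c ξ => hinj _ _ fun g => by
        rw [RingHom.id_apply, map_smul, ← hT, ← hT, hR, hR, map_smul] }
  refine ⟨T₀.mkContinuous ‖S‖ hnorm, fun y ξ => ?_⟩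
  show Φ.symm (S y) ξ = Φ.symm y (T ξ)
  rw [← hT, hR, Φ.apply_symm_apply]

end

end Pool.Agent.Work.MP_64e6b8_an
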