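import Pool.Agent.Work.MP_64e6b8_an.Real

set_option autoImplicit false

namespace Pool.Agent.Work.MP_64e6b8_an

open Filter Topology

universe u v

section

variable {B : Type v} [NonUnitalCStarAlgebra B] {A : NonUnitalStarSubalgebra ℝ B}

open scoped CStarAlgebra in
/-- Gelfand representation of a commutative non-unital complex C*-algebra -/
lemma exists_gelfand_complex (S : Type v) [NonUnitalCommCStarAlgebra S] :
    ∃ (Ω : Type v) (_ : TopologicalSpace Ω) (_ : CompactSpace Ω) (f : S → C(Ω, ℂ)),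
      (∀ a, ‖f a‖ = ‖a‖) ∧ (∀ a b, f (a + b) = f a + f b) ∧ (∀ (c : ℂ) a, f (c • a) = c • f a) ∧
      (∀ a b, f (a * b) = f a * f b) ∧ (∀ a, f (star a) = star (f a)) := by
  let g := gelfandStarTransform S⁺¹
  let j := Unitization.inrNonUnitalStarAlgHom ℂ S
  refine ⟨WeakDual.characterSpace ℂ S⁺¹, inferInstance, inferInstance, fun a => g (j a),
    ?_, ?_, ?_, ?_, ?_⟩
  · intro a
    have h1 : ‖g (j a)‖ = ‖j a‖ := by
      have := (gelfandTransform_isometry S⁺¹).norm_map_of_map_zero (map_zero _) (j a)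
      exact this
    rw [h1]
    exact Unitization.norm_inr a
  · intro a b
    show g (j (a + b)) = g (j a) + g (j b)
    rw [map_add, map_add]
  · intro c a
    show g (j (c • a)) = c • g (j a)
    rw [map_smul, map_smul]
  · intro a b
    show g (j (a * b)) = g (j a) * g (j b)
    rw [map_mul, map_mul]
  · intro a
    show g (j (star a)) = star (g (j a))
    rw [map_star, map_star]

open scoped IsMulCommutative in
/-- Gelfand representation of a real C*-algebra with trivial involution -/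
lemma exists_gelfand_real (hsa : ∀ a : A, star a = a) :
    ∃ (Ω : Type v) (_ : TopologicalSpace Ω) (_ : CompactSpace Ω) (f : A → C(Ω, ℝ)),
      (∀ a, ‖f a‖ = ‖a‖) ∧ (∀ a b, f (a + b) = f a + f b) ∧ (∀ (c : ℝ) a, f (c • a) = c • f a) ∧
      (∀ a b, f (a * b) = f a * f b) := by
  have hcomm : ∀ a b : A, a * b = b * a := by
    intro a b
    have := hsa (a * b)
    rw [star_mul, hsa, hsa] at this
    exact this.symm
  let R : NonUnitalStarSubalgebra ℂ B := NonUnitalStarAlgebra.adjoin ℂ (A : Set B)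
  let S : NonUnitalStarSubalgebra ℂ B := R.topologicalClosure
  have hS : IsClosed (S : Set B) := R.isClosed_topologicalClosure
  have hRc : IsMulCommutative R := by
    refine NonUnitalStarAlgebra.isMulCommutative_adjoin ℂ ?_ ?_
    · intro x hx y hy
      exact congrArg Subtype.val (hcomm ⟨x, hx⟩ ⟨y, hy⟩)
    · intro x hx y hy
      have h1 : star y = y := congrArg Subtype.val (hsa ⟨y, hy⟩)
      rw [h1]
      exact congrArg Subtype.val (hcomm ⟨x, hx⟩ ⟨y, hy⟩)
  let _ : NonUnitalCommRing S := R.nonUnitalCommRingTopologicalClosure mul_comm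
  let _ : NonUnitalCommCStarAlgebra S := { }
  obtain ⟨Ω, t1, t2, f, h1, h2, h3, h4, h5⟩ := exists_gelfand_complex S
  have hAS : ∀ a : A, (a : B) ∈ S := fun a =>
    NonUnitalStarSubalgebra.le_topologicalClosure R (NonUnitalStarAlgebra.subset_adjoin ℂ _ a.2)
  let ι : A → S := fun a => ⟨a, hAS a⟩
  have hreal : ∀ (a : A) (ω : Ω), ((f (ι a) ω).re : ℂ) = f (ι a) ω := by
    intro a ω
    have e0 : star (a : B) = a := congrArg Subtype.val (hsa a)
    have e1 : star (ι a) = ι a := Subtype.ext e0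
    have e2 := h5 (ι a)
    rw [e1] at e2
    have e3 : star (f (ι a)) ω = f (ι a) ω := by rw [← e2]
    rw [ContinuousMap.star_apply] at e3
    exact Complex.conj_eq_iff_re.mp e3
  let F : A → C(Ω, ℝ) := fun a => ⟨fun ω => (f (ι a) ω).re, by fun_prop⟩
  have hF : ∀ a ω, ((F a ω : ℝ) : ℂ) = f (ι a) ω := hreal
  refine ⟨Ω, t1, t2, F, ?_, ?_, ?_, ?_⟩
  · intro a
    have e1 : ‖a‖ = ‖f (ι a)‖ := (h1 (ι a)).symm
    rw [e1]
    refine le_antisymm ?_ ?_
    · refine (ContinuousMap.norm_le _ (norm_nonneg _)).mpr (fun ω => ?_)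
      have := (f (ι a)).norm_coe_le_norm ω
      rw [← hF, Complex.norm_real] at this
      exact this
    · refine (ContinuousMap.norm_le _ (norm_nonneg _)).mpr (fun ω => ?_)
      rw [← hF, Complex.norm_real]
      exact (F a).norm_coe_le_norm ω
  · intro a b
    ext ω
    have e1 : ι (a + b) = ι a + ι b := rfl
    apply Complex.ofReal_injective
    rw [hF, e1, h2, ContinuousMap.add_apply, ContinuousMap.add_apply, Complex.ofReal_add, hF, hF]
  · intro c a
    ext ω
    have e1 : ι (c • a) = (c : ℂ) • ι a := by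
      apply Subtype.ext
      show c • (a : B) = (c : ℂ) • (a : B)
      exact (Complex.coe_smul c (a : B)).symm
    apply Complex.ofReal_injective
    rw [hF, e1, h3, ContinuousMap.smul_apply, ContinuousMap.smul_apply, smul_eq_mul, smul_eq_mul,
      Complex.ofReal_mul, hF]
  · intro a b
    ext ω
    have e1 : ι (a * b) = ι a * ι b := rfl
    apply Complex.ofReal_injective
    rw [hF, e1, h4, ContinuousMap.mul_apply, ContinuousMap.mul_apply, Complex.ofReal_mul, hF, hF]

lemma aux_zero {X : Type*} [NormedAddCommGroup X] [NormedSpace ℝ X] [Nontrivial X] :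
    1 + ‖(0 : X →L[ℝ] X)‖ ≤ max ‖(1 : X →L[ℝ] X) + 0‖ ‖(1 : X →L[ℝ] X) - 0‖ := by
  rw [norm_zero, add_zero, add_zero, sub_zero, max_self, norm_one]

lemma aux_pos {X : Type*} [NormedAddCommGroup X] [NormedSpace ℝ X] {T : X →L[ℝ] X}
    (hT : T ≠ 0) : 0 < ‖T‖ := norm_pos_iff.mpr hT

/-- If every element of `A` is self-adjoint then `A` has numerical index one in the strong form
`1 + ‖T‖ = max ‖1 ± T‖`. -/
lemma max_norm_of_trivial (hA : IsClosed (A : Set B)) (hsa : ∀ a : A, star a = a)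
    [Nontrivial A] (T : A →L[ℝ] A) : 1 + ‖T‖ ≤ max ‖1 + T‖ ‖1 - T‖ := by
  obtain ⟨Ω, _, _, f, h1, h2, h3, h4⟩ := exists_gelfand_real hsa
  rcases eq_or_ne T 0 with rfl | hT
  · exact aux_zero
  have hTpos : 0 < ‖T‖ := aux_pos hT
  have hf0 : ∀ a ω, f (-a) ω = -f a ω := by
    intro a ω
    have : f (-a) = -f a := by
      have := h3 (-1) a
      rwa [neg_one_smul, neg_one_smul] at this
    rw [this]; rfl
  have hsub : ∀ a b ω, f (a - b) ω = f a ω - f b ω := by
    intro a b ω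
    rw [sub_eq_add_neg, h2, ContinuousMap.add_apply, hf0]
    ring
  have hadd : ∀ a b ω, f (a + b) ω = f a ω + f b ω := by
    intro a b ω
    rw [h2]; rfl
  have hmul : ∀ a b ω, f (a * b) ω = f a ω * f b ω := by
    intro a b ω
    rw [h4]; rfl
  have hsmul : ∀ (c : ℝ) a ω, f (c • a) ω = c * f a ω := by
    intro a b ω
    rw [h3]; rfl
  have hle : ∀ a ω, |f a ω| ≤ ‖a‖ := by
    intro a ω
    have := (f a).norm_coe_le_norm ω
    rwa [h1] at this
  have habs : ∀ x : A, ∃ w : A, ∀ ω, f w ω = |f x ω| := by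
    intro x
    have hx : IsSelfAdjoint (x : B) := congrArg Subtype.val (hsa x)
    let g : ℝ → ℝ := fun t => |t|
    let g' : ℝ → ℝ := fun t => Real.sqrt |t|
    have hg : Continuous g := continuous_abs
    have hg' : Continuous g' := Real.continuous_sqrt.comp continuous_abs
    have hg0 : g 0 = 0 := abs_zero
    have hg0' : g' 0 = 0 := by simp [g']
    let w : A := ⟨cfcₙ g (x : B), cfcₙ_mem (𝕜' := ℝ) (hs := hA) _ x.2⟩
    let w' : A := ⟨cfcₙ g' (x : B), cfcₙ_mem (𝕜' := ℝ) (hs := hA) _ x.2⟩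
    have e1 : w = w' * w' := by
      apply Subtype.ext
      show cfcₙ g (x : B) = cfcₙ g' (x : B) * cfcₙ g' (x : B)
      rw [← cfcₙ_mul g' g' (x : B) hg'.continuousOn hg0' hg'.continuousOn hg0']
      congr 1
      funext t
      exact (Real.mul_self_sqrt (abs_nonneg t)).symm
    have e2 : w * w = x * x := by
      apply Subtype.ext
      show cfcₙ g (x : B) * cfcₙ g (x : B) = (x : B) * x
      rw [← cfcₙ_mul g g (x : B) hg.continuousOn hg0 hg.continuousOn hg0]
      conv_rhs => rw [← cfcₙ_id' ℝ (x : B)]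
      rw [← cfcₙ_mul (fun t => t) (fun t => t) (x : B) (by fun_prop) rfl (by fun_prop) rfl]
      congr 1
      funext t
      exact abs_mul_abs_self t
    refine ⟨w, fun ω => ?_⟩
    have e3 : 0 ≤ f w ω := by rw [e1, hmul]; exact mul_self_nonneg _
    have e4 : f w ω * f w ω = f x ω * f x ω := by rw [← hmul, ← hmul, e2]
    rw [← abs_of_nonneg e3]
    exact (abs_eq_abs.mpr (mul_self_eq_mul_self_iff.mp e4))
  refine le_of_forall_pos_sub_le (fun δ hδ => ?_)
  set ε : ℝ := min (δ / 2) (‖T‖ / 2) with hε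
  have hε0 : 0 < ε := lt_min (by linarith) (by linarith)
  have hε1 : ε ≤ δ / 2 := min_le_left _ _
  have hε2 : ε ≤ ‖T‖ / 2 := min_le_right _ _
  obtain ⟨x₀, hx₀1, hx₀2⟩ : ∃ x : A, ‖x‖ ≤ 1 ∧ ‖T‖ - ε < ‖T x‖ := by
    by_contra hcon
    push Not at hcon
    have : ‖T‖ ≤ ‖T‖ - ε := by
      refine ContinuousLinearMap.opNorm_le_of_unit_norm (by linarith) (fun z hz => ?_)
      exact hcon z hz.le
    linarith
  -- norming point
  obtain ⟨ω, hω⟩ : ∃ ω, |f (T x₀) ω| = ‖T x₀‖ := by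
    have hpos : 0 < ‖T x₀‖ := by linarith
    have hne : Nonempty Ω := by
      by_contra hcon
      rw [not_nonempty_iff] at hcon
      have : ‖f (T x₀)‖ = 0 := by
        have h0 : f (T x₀) = 0 := by
          ext ω; exact (hcon.false ω).elim
        rw [h0, norm_zero]
      rw [h1] at this
      linarith
    obtain ⟨ω, -, hω⟩ := isCompact_univ.exists_isMaxOn (Set.univ_nonempty (α := Ω))
      (f := fun ω => |f (T x₀) ω|) (by fun_prop)
    refine ⟨ω, le_antisymm (hle _ _) ?_⟩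
    rw [← h1]
    refine (ContinuousMap.norm_le _ (abs_nonneg _)).mpr (fun τ => ?_)
    exact hω (Set.mem_univ τ)
  obtain ⟨x, hx1, hx2, hω'⟩ : ∃ x : A, ‖x‖ ≤ 1 ∧ ‖T‖ - ε < ‖T x‖ ∧ f (T x) ω = ‖T x‖ := by
    rcases abs_cases (f (T x₀) ω) with ⟨h5, -⟩ | ⟨h5, -⟩
    · exact ⟨x₀, hx₀1, hx₀2, by rw [← h5, hω]⟩
    · refine ⟨-x₀, by rwa [norm_neg], by rwa [map_neg, norm_neg], ?_⟩
      rw [map_neg, hf0, norm_neg, ← h5, hω]
  set y := T x with hy
  have hypos : 0 < ‖y‖ := by linarith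
  set e : A := (‖y‖ ^ 2)⁻¹ • (y * y) with he
  have he' : ∀ τ, f e τ = (‖y‖ ^ 2)⁻¹ * (f y τ * f y τ) := fun τ => by
    rw [he, hsmul, hmul]
  have he0 : ∀ τ, 0 ≤ f e τ := fun τ => by
    rw [he']
    exact mul_nonneg (by positivity) (mul_self_nonneg _)
  have he1 : ∀ τ, f e τ ≤ 1 := fun τ => by
    rw [he', inv_mul_le_iff₀ (by positivity), mul_one]
    have h5 := hle y τ
    have h6 := abs_nonneg (f y τ)
    have h7 : f y τ * f y τ = |f y τ| * |f y τ| := (abs_mul_abs_self _).symm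
    rw [h7]
    nlinarith
  have heω : f e ω = 1 := by
    rw [he', hω']
    field_simp
  obtain ⟨w, hw⟩ := habs x
  set z : A := e - w * e with hz
  have hz' : ∀ τ, f z τ = f e τ * (1 - |f x τ|) := fun τ => by
    rw [hz, hsub, hmul, hw]; ring
  have hz1 : ∀ τ, |f x τ| + |f z τ| ≤ 1 := fun τ => by
    have h5 := (hle x τ).trans hx1
    rw [hz', abs_mul, abs_of_nonneg (he0 τ), abs_of_nonneg (by linarith : 0 ≤ 1 - |f x τ|)]
    nlinarith [he1 τ, he0 τ]
  have hxp : ‖x + z‖ ≤ 1 := by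
    rw [← h1]
    refine (ContinuousMap.norm_le _ zero_le_one).mpr (fun τ => ?_)
    rw [hadd]
    exact (abs_add_le _ _).trans (hz1 τ)
  have hxm : ‖x - z‖ ≤ 1 := by
    rw [← h1]
    refine (ContinuousMap.norm_le _ zero_le_one).mpr (fun τ => ?_)
    rw [hsub]
    exact (abs_sub _ _).trans (hz1 τ)
  have hTp : f (T (x + z)) ω ≤ ‖T‖ := by
    calc f (T (x + z)) ω ≤ |f (T (x + z)) ω| := le_abs_self _
      _ ≤ ‖T (x + z)‖ := hle _ _
      _ ≤ ‖T‖ * ‖x + z‖ := T.le_opNorm _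
      _ ≤ ‖T‖ * 1 := by gcongr
      _ = ‖T‖ := mul_one _
  have hTm : f (T (x - z)) ω ≤ ‖T‖ := by
    calc f (T (x - z)) ω ≤ |f (T (x - z)) ω| := le_abs_self _
      _ ≤ ‖T (x - z)‖ := hle _ _
      _ ≤ ‖T‖ * ‖x - z‖ := T.le_opNorm _
      _ ≤ ‖T‖ * 1 := by gcongr
      _ = ‖T‖ := mul_one _
  have hsum : f (T (x + z)) ω + f (T (x - z)) ω = 2 * ‖y‖ := by
    have e1 : T (x + z) = y + T z := by rw [map_add]
    have e2 : T (x - z) = y - T z := by rw [map_sub]
    rw [e1, e2, hadd, hsub, hω']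
    ring
  have hzω : f z ω = 1 - |f x ω| := by rw [hz', heω, one_mul]
  rcases le_total 0 (f x ω) with h0 | h0
  · refine le_trans ?_ (le_max_left _ _)
    have h5 : f (x + z) ω = 1 := by rw [hadd, hzω, abs_of_nonneg h0]; ring
    have h6 : f ((1 + T) (x + z)) ω ≤ ‖1 + T‖ := by
      calc f ((1 + T) (x + z)) ω ≤ |f ((1 + T) (x + z)) ω| := le_abs_self _
        _ ≤ ‖(1 + T) (x + z)‖ := hle _ _
        _ ≤ ‖1 + T‖ * ‖x + z‖ := (1 + T).le_opNorm _
        _ ≤ ‖1 + T‖ * 1 := by gcongr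
        _ = ‖1 + T‖ := mul_one _
    have h7 : f ((1 + T) (x + z)) ω = f (x + z) ω + f (T (x + z)) ω := by
      rw [← hadd]; rfl
    rw [h7, h5] at h6
    linarith
  · refine le_trans ?_ (le_max_right _ _)
    have h5 : f (x - z) ω = -1 := by rw [hsub, hzω, abs_of_nonpos h0]; ring
    have h6 : -f ((1 - T) (x - z)) ω ≤ ‖1 - T‖ := by
      calc -f ((1 - T) (x - z)) ω ≤ |f ((1 - T) (x - z)) ω| := neg_le_abs _
        _ ≤ ‖(1 - T) (x - z)‖ := hle _ _
        _ ≤ ‖1 - T‖ * ‖x - z‖ := (1 - T).le_opNorm _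
        _ ≤ ‖1 - T‖ * 1 := by gcongr
        _ = ‖1 - T‖ := mul_one _
    have h7 : f ((1 - T) (x - z)) ω = f (x - z) ω - f (T (x - z)) ω := by
      rw [← hsub]; rfl
    rw [h7, h5] at h6
    linarith

end

end Pool.Agent.Work.MP_64e6b8_an
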