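import Pool.Agent.Work.MP_64e6b8_an.CaseTwoFinal
import Pool.Agent.Work.MP_64e6b8_an.Trivial

set_option autoImplicit false

namespace Pool.Agent.Work.MP_64e6b8_an

universe u v

section

variable {B : Type v} [NonUnitalCStarAlgebra B] {A : NonUnitalStarSubalgebra ℝ B}

lemma exists_skew (h : ¬ ∀ a : A, star a = a) : ∃ a : A, star a = -a ∧ a ≠ 0 := by
  push Not at h
  obtain ⟨a, ha⟩ := h
  refine ⟨star a - a, ?_, sub_ne_zero.mpr ha⟩
  rw [star_sub, star_star, neg_sub]

theorem index_algebra_one (hA : IsClosed (A : Set B)) [Nontrivial A]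
    (h : ∀ a : A, star a = a) : numericalIndex A = 1 :=
  numericalIndex_eq_one (max_norm_of_trivial hA h)

theorem index_algebra_zero (h : ¬ ∀ a : A, star a = a) : numericalIndex A = 0 := by
  obtain ⟨a, ha, ha0⟩ := exists_skew h
  exact index_self_zero ha ha0

variable {X : Type u} [NormedAddCommGroup X] [NormedSpace ℝ X]

theorem index_predual_one (hA : IsClosed (A : Set B)) [Nontrivial A]
    (h : ∀ a : A, star a = a) (Φ : (X →L[ℝ] ℝ) ≃ₗᵢ[ℝ] A) : numericalIndex X = 1 := by
  have : Nontrivial X := by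
    by_contra hX
    rw [not_nontrivial_iff_subsingleton] at hX
    have h1 : ∀ f g : X →L[ℝ] ℝ, f = g := by
      intro f g
      ext x
      rw [Subsingleton.elim x 0, map_zero, map_zero]
    obtain ⟨a, b, hab⟩ := exists_pair_ne A
    apply hab
    have := h1 (Φ.symm a) (Φ.symm b)
    exact Φ.symm.injective this
  exact numericalIndex_eq_one (max_norm_of_predual Φ (max_norm_of_trivial hA h))

theorem index_predual_zero [CompleteSpace X] (hA : IsClosed (A : Set B))
    (h : ¬ ∀ a : A, star a = a) (Φ : (X →L[ℝ] ℝ) ≃ₗᵢ[ℝ] A) : numericalIndex X = 0 := by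
  by_cases hcen : ∀ p : A, IsStarProjection p → ∀ x : A, p * x = x * p
  · exact case_two Φ hA hcen (exists_skew h)
  · push Not at hcen
    obtain ⟨p, hp, x, hx⟩ := hcen
    exact case_one hp hx Φ

end

end Pool.Agent.Work.MP_64e6b8_an
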