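import Pool.Agent.Work.MP_64e6b8_an.Defs

set_option autoImplicit false

namespace Pool.Agent.Work.MP_64e6b8_an

section general

variable {X : Type*} [NormedAddCommGroup X] [NormedSpace ℝ X]

lemma numericalRadius_nonneg (T : X →L[ℝ] X) : 0 ≤ numericalRadius T := by
  refine Real.sSup_nonneg ?_
  rintro _ ⟨r, -, rfl⟩
  exact abs_nonneg r

lemma abs_le_norm_of_mem {T : X →L[ℝ] X} {r : ℝ} (hr : r ∈ numericalRange T) : |r| ≤ ‖T‖ := by
  obtain ⟨x, f, hx, hf, -, rfl⟩ := hr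
  calc |f (T x)| = ‖f (T x)‖ := rfl
    _ ≤ ‖f‖ * ‖T x‖ := f.le_opNorm _
    _ ≤ 1 * (‖T‖ * ‖x‖) := by rw [hf]; gcongr; exact T.le_opNorm x
    _ = ‖T‖ := by rw [hx]; ring

lemma abs_le_numericalRadius {T : X →L[ℝ] X} {r : ℝ} (hr : r ∈ numericalRange T) :
    |r| ≤ numericalRadius T := by
  refine le_csSup ⟨‖T‖, ?_⟩ ⟨r, hr, rfl⟩
  rintro _ ⟨s, hs, rfl⟩
  exact abs_le_norm_of_mem hs

lemma numericalRadius_le_norm (T : X →L[ℝ] X) : numericalRadius T ≤ ‖T‖ := by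
  refine Real.sSup_le ?_ (norm_nonneg T)
  rintro _ ⟨s, hs, rfl⟩
  exact abs_le_norm_of_mem hs

/-- If some non-zero operator has numerical range `{0}`, the numerical index is `0`. -/
lemma numericalIndex_eq_zero {T : X →L[ℝ] X} (hT : T ≠ 0)
    (h : ∀ (x : X) (f : X →L[ℝ] ℝ), ‖x‖ = 1 → ‖f‖ = 1 → f x = 1 → f (T x) = 0) :
    numericalIndex X = 0 := by
  have hT' : ‖T‖ ≠ 0 := norm_ne_zero_iff.mpr hT
  refine le_antisymm ?_ ?_
  · refine csInf_le ⟨0, ?_⟩ ⟨‖T‖⁻¹ • T, ?_, ?_⟩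
    · rintro _ ⟨S, -, rfl⟩
      exact numericalRadius_nonneg S
    · rw [norm_smul, norm_inv, norm_norm, inv_mul_cancel₀ hT']
    · refine le_antisymm (numericalRadius_nonneg _) ?_
      refine Real.sSup_le ?_ le_rfl
      rintro _ ⟨r, ⟨x, f, hx, hf, hfx, rfl⟩, rfl⟩
      simp [h x f hx hf hfx]
  · refine Real.sInf_nonneg ?_
    rintro _ ⟨S, -, rfl⟩
    exact numericalRadius_nonneg S

lemma le_norm_sub_smul (T : X →L[ℝ] X) (s : ℝ) (x : X) :
    (1 - |s| * numericalRadius T) * ‖x‖ ≤ ‖x - s • T x‖ := by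
  rcases eq_or_ne x 0 with rfl | hx
  · simp
  obtain ⟨f, hf, hfx⟩ := exists_dual_vector ℝ x (norm_ne_zero_iff.mpr hx)
  have hx' : 0 < ‖x‖ := norm_pos_iff.mpr hx
  set u : X := ‖x‖⁻¹ • x with hu
  have hu1 : ‖u‖ = 1 := by rw [hu, norm_smul, norm_inv, norm_norm, inv_mul_cancel₀ hx'.ne']
  have hfu : f u = 1 := by
    rw [hu, map_smul, hfx]
    simp [hx'.ne']
  have hmem : f (T u) ∈ numericalRange T := ⟨u, f, hu1, hf, hfu, rfl⟩
  have h1 := abs_le_numericalRadius hmem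
  have h2 : 1 - |s| * numericalRadius T ≤ ‖u - s • T u‖ := by
    calc 1 - |s| * numericalRadius T ≤ 1 - |s| * |f (T u)| := by gcongr
      _ ≤ 1 - s * f (T u) := by rw [← abs_mul]; linarith [le_abs_self (s * f (T u))]
      _ = f (u - s • T u) := by rw [map_sub, hfu, f.map_smul, smul_eq_mul]
      _ ≤ ‖f (u - s • T u)‖ := Real.le_norm_self _
      _ ≤ ‖f‖ * ‖u - s • T u‖ := f.le_opNorm _
      _ = ‖u - s • T u‖ := by rw [hf, one_mul]
  have h3 : ‖u - s • T u‖ = ‖x‖⁻¹ * ‖x - s • T x‖ := by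
    have : u - s • T u = ‖x‖⁻¹ • (x - s • T x) := by
      rw [hu, map_smul, smul_sub, smul_comm]
    rw [this, norm_smul, norm_inv, norm_norm]
  rw [h3] at h2
  calc (1 - |s| * numericalRadius T) * ‖x‖ ≤ (‖x‖⁻¹ * ‖x - s • T x‖) * ‖x‖ := by gcongr
    _ = ‖x - s • T x‖ := by field_simp

/-- If `max ‖1 + T‖ ‖1 - T‖ = 1 + ‖T‖` for all `T`, then the numerical index is `1`. -/
lemma numericalIndex_eq_one [Nontrivial X]
    (h : ∀ T : X →L[ℝ] X, 1 + ‖T‖ ≤ max ‖1 + T‖ ‖1 - T‖) : numericalIndex X = 1 := by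
  have key : ∀ T : X →L[ℝ] X, ‖T‖ = 1 → numericalRadius T = 1 := by
    intro T hT
    refine le_antisymm (hT ▸ numericalRadius_le_norm T) ?_
    set ρ := numericalRadius T with hρ
    have hρ0 : 0 ≤ ρ := numericalRadius_nonneg T
    by_contra hcon
    push Not at hcon
    -- the estimate ‖1 + s T‖ ≤ (1 + s²) / (1 - |s| ρ)
    have est : ∀ s : ℝ, |s| < 1 → (1 - |s| * ρ) * ‖(1 : X →L[ℝ] X) + s • T‖ ≤ 1 + s ^ 2 := by
      intro s hs
      have hpos : 0 < 1 - |s| * ρ := by nlinarith [abs_nonneg s]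
      rw [← le_div_iff₀' hpos]
      refine ContinuousLinearMap.opNorm_le_bound _ (by positivity) (fun z => ?_)
      rw [div_mul_eq_mul_div, le_div_iff₀' hpos]
      have h1 := le_norm_sub_smul T s (((1 : X →L[ℝ] X) + s • T) z)
      refine h1.trans ?_
      have h2 : ((1 : X →L[ℝ] X) + s • T) z - s • T (((1 : X →L[ℝ] X) + s • T) z)
          = z - s ^ 2 • T (T z) := by
        simp only [add_apply, one_apply_eq_self,
          smul_apply, map_add, map_smul, smul_add, smul_smul]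
        rw [pow_two]
        abel
      rw [h2]
      calc ‖z - s ^ 2 • T (T z)‖ ≤ ‖z‖ + ‖s ^ 2 • T (T z)‖ := norm_sub_le _ _
        _ ≤ ‖z‖ + s ^ 2 * ‖z‖ := by
            rw [norm_smul, Real.norm_of_nonneg (sq_nonneg s)]
            gcongr
            calc ‖T (T z)‖ ≤ ‖T‖ * ‖T z‖ := T.le_opNorm _
              _ ≤ ‖T‖ * (‖T‖ * ‖z‖) := by gcongr; exact T.le_opNorm z
              _ = ‖z‖ := by rw [hT]; ring
        _ = (1 + s ^ 2) * ‖z‖ := by ring
    have main : ∀ s : ℝ, 0 < s → s < 1 → (1 + s) * (1 - s * ρ) ≤ 1 + s ^ 2 := by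
      intro s hs0 hs1
      have hpos : 0 ≤ 1 - s * ρ := by nlinarith
      have h1 := h (s • T)
      rw [norm_smul, hT, Real.norm_of_nonneg hs0.le, mul_one] at h1
      rcases le_max_iff.mp h1 with h2 | h2
      · have h3 := est s (by rwa [abs_of_pos hs0])
        rw [abs_of_pos hs0] at h3
        nlinarith
      · have h3 := est (-s) (by rwa [abs_neg, abs_of_pos hs0])
        rw [abs_neg, abs_of_pos hs0, neg_smul, ← sub_eq_add_neg] at h3
        nlinarith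
    -- choose s small
    set s : ℝ := (1 - ρ) / 4 with hs
    have hs0 : 0 < s := by rw [hs]; linarith
    have hs1 : s < 1 := by rw [hs]; linarith
    have := main s hs0 hs1
    nlinarith
  have hset : {s | ∃ T : X →L[ℝ] X, ‖T‖ = 1 ∧ s = numericalRadius T} = {1} := by
    refine Set.ext fun s => ⟨?_, ?_⟩
    · rintro ⟨T, hT, rfl⟩
      exact key T hT
    · rintro rfl
      exact ⟨1, norm_one, (key 1 norm_one).symm⟩
  rw [numericalIndex, hset, csInf_singleton]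

end general

section duality

variable {X : Type*} [NormedAddCommGroup X] [NormedSpace ℝ X]
variable {Y : Type*} [NormedAddCommGroup Y] [NormedSpace ℝ Y]

/-- The property `max ‖1 + T‖ ‖1 - T‖ = 1 + ‖T‖` passes to isometric preduals. -/
lemma max_norm_of_predual (Φ : (X →L[ℝ] ℝ) ≃ₗᵢ[ℝ] Y)
    (h : ∀ T : Y →L[ℝ] Y, 1 + ‖T‖ ≤ max ‖1 + T‖ ‖1 - T‖) (T : X →L[ℝ] X) :
    1 + ‖T‖ ≤ max ‖1 + T‖ ‖1 - T‖ := by
  -- the adjoint, transported to `Y`
  let adj : (X →L[ℝ] X) → (Y →L[ℝ] Y) := fun S =>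
    (Φ : (X →L[ℝ] ℝ) →L[ℝ] Y).comp
      (((ContinuousLinearMap.compL ℝ X X ℝ).flip S).comp (Φ.symm : Y →L[ℝ] (X →L[ℝ] ℝ)))
  have adj_apply : ∀ S y x, (Φ.symm (adj S y)) x = (Φ.symm y) (S x) := by
    intro S y x
    simp [adj]
  have hle : ∀ S, ‖adj S‖ ≤ ‖S‖ := by
    intro S
    refine ContinuousLinearMap.opNorm_le_bound _ (norm_nonneg S) (fun y => ?_)
    rw [← Φ.symm.norm_map]
    refine ContinuousLinearMap.opNorm_le_bound _ (by positivity) (fun x => ?_)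
    rw [adj_apply]
    calc ‖(Φ.symm y) (S x)‖ ≤ ‖Φ.symm y‖ * ‖S x‖ := ContinuousLinearMap.le_opNorm _ _
      _ ≤ ‖y‖ * (‖S‖ * ‖x‖) := by rw [Φ.symm.norm_map]; gcongr; exact S.le_opNorm x
      _ = ‖S‖ * ‖y‖ * ‖x‖ := by ring
  have hge : ∀ S, ‖S‖ ≤ ‖adj S‖ := by
    intro S
    refine ContinuousLinearMap.opNorm_le_bound _ (norm_nonneg _) (fun x => ?_)
    rcases eq_or_ne (S x) 0 with h0 | h0
    · rw [h0, norm_zero]; positivity
    obtain ⟨f, hf, hfx⟩ := exists_dual_vector ℝ (S x) (norm_ne_zero_iff.mpr h0)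
    calc ‖S x‖ = ‖f (S x)‖ := by rw [hfx]; simp
      _ = ‖(Φ.symm (adj S (Φ f))) x‖ := by rw [adj_apply, Φ.symm_apply_apply]
      _ ≤ ‖Φ.symm (adj S (Φ f))‖ * ‖x‖ := ContinuousLinearMap.le_opNorm _ _
      _ = ‖adj S (Φ f)‖ * ‖x‖ := by rw [Φ.symm.norm_map]
      _ ≤ (‖adj S‖ * ‖Φ f‖) * ‖x‖ := by gcongr; exact (adj S).le_opNorm _
      _ = ‖adj S‖ * ‖x‖ := by rw [Φ.norm_map, hf, mul_one]
  have hnorm : ∀ S, ‖adj S‖ = ‖S‖ := fun S => le_antisymm (hle S) (hge S)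
  have hadd : adj (1 + T) = 1 + adj T := by
    ext y
    apply Φ.symm.injective
    ext x
    simp [adj]
  have hsub : adj (1 - T) = 1 - adj T := by
    ext y
    apply Φ.symm.injective
    ext x
    simp [adj]
  have := h (adj T)
  rwa [← hadd, ← hsub, hnorm, hnorm, hnorm] at this

end duality

end Pool.Agent.Work.MP_64e6b8_an
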