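import Pool.Agent.Work.MP_64e6b8_an.NumRange
import Pool.Agent.Work.MP_64e6b8_an.Limit
import Pool.Agent.Work.MP_64e6b8_an.CStar

set_option autoImplicit false

namespace Pool.Agent.Work.MP_64e6b8_an

open Filter Topology

universe u v

section basic

variable {B : Type v} [NonUnitalCStarAlgebra B] {A : NonUnitalStarSubalgebra ℝ B}

lemma sa_norm_star_mul_self (x : A) : ‖star x * x‖ = ‖x‖ * ‖x‖ :=
  CStarRing.norm_star_mul_self (x := (x : B))

lemma sa_norm_star (x : A) : ‖star x‖ = ‖x‖ := norm_star (x : B)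

lemma sa_eq_zero {x : A} (h : star x * x = 0) : x = 0 := by
  have := sa_norm_star_mul_self x
  rw [h, norm_zero] at this
  have h2 : ‖x‖ = 0 := by nlinarith [norm_nonneg x]
  exact norm_eq_zero.mp h2

lemma sa_norm_pert {v : A} (hv : ‖v‖ ≤ 1) {c : ℝ} (hc : |c| ≤ 1 / 2) :
    ‖v + c • (v - v * star v * v)‖ ≤ 1 :=
  norm_pert (v := (v : B)) hv hc

lemma sa_norm_add_sq_le {x z : A} (h : star x * z = 0) : ‖x + z‖ ^ 2 ≤ ‖x‖ ^ 2 + ‖z‖ ^ 2 :=
  norm_add_sq_le_of_star_mul (x := (x : B)) (z := (z : B)) (congrArg Subtype.val h)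

lemma sa_norm_add_sq_le' {x z : A} (h : x * star z = 0) : ‖x + z‖ ^ 2 ≤ ‖x‖ ^ 2 + ‖z‖ ^ 2 :=
  norm_add_sq_le_of_mul_star (x := (x : B)) (z := (z : B)) (congrArg Subtype.val h)

lemma sa_norm_add_le_one {v y : A} (hv : v * star v * v = v) (h1 : star v * y = 0)
    (h2 : y * star v = 0) (hy : ‖y‖ ≤ 1) : ‖v + y‖ ≤ 1 :=
  norm_add_le_one (v := (v : B)) (y := (y : B)) (congrArg Subtype.val hv)
    (congrArg Subtype.val h1) (congrArg Subtype.val h2) hy

lemma sa_proj_coe {p : A} (hp : IsStarProjection p) : IsStarProjection (p : B) :=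
  ⟨congrArg Subtype.val hp.isIdempotentElem.eq, congrArg Subtype.val hp.isSelfAdjoint.star_eq⟩

lemma sa_re_eq_zero {P u y : A} (hP : IsStarProjection P) (hu : star u * u = P)
    (huP : u * P = u) (hyP : y * P = y) {K : ℝ}
    (h : ∀ t : ℝ, ‖u + t • y‖ ^ 2 ≤ 1 + t ^ 2 * K) : star u * y + star y * u = 0 :=
  Subtype.ext (re_eq_zero (P := (P : B)) (u := (u : B)) (y := (y : B)) (K := K) (sa_proj_coe hP)
    (congrArg Subtype.val hu) (congrArg Subtype.val huP) (congrArg Subtype.val hyP) h)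

lemma sa_norm_proj_le {p : A} (hp : IsStarProjection p) : ‖p‖ ≤ 1 :=
  norm_star_projection_le (sa_proj_coe hp)

lemma sa_norm_proj_mul_le {p : A} (hp : IsStarProjection p) (w : A) : ‖p * w‖ ≤ ‖w‖ := by
  calc ‖p * w‖ ≤ ‖p‖ * ‖w‖ := norm_mul_le _ _
    _ ≤ 1 * ‖w‖ := by gcongr; exact sa_norm_proj_le hp
    _ = ‖w‖ := one_mul _

lemma sa_norm_sub_proj_mul_le {p : A} (hp : IsStarProjection p) (w : A) :
    ‖w - p * w‖ ≤ ‖w‖ := by
  let _ : PartialOrder B := CStarAlgebra.spectralOrder B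
  have _ : StarOrderedRing B := CStarAlgebra.spectralOrderedRing B
  have hps : star p = p := hp.isSelfAdjoint.star_eq
  have hpp : p * p = p := hp.isIdempotentElem.eq
  have e : star (w - p * w) * (w - p * w) = star w * w - star (p * w) * (p * w) := by
    simp only [star_sub, star_mul, hps, sub_mul, mul_sub, mul_assoc]
    simp only [← mul_assoc p p, hpp]
    abel
  have h1 : (star ((w : B) - p * w) * ((w : B) - p * w)) ≤ star (w : B) * w := by
    have e' : star ((w : B) - p * w) * ((w : B) - p * w)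
        = star (w : B) * w - star ((p : B) * w) * ((p : B) * w) := congrArg Subtype.val e
    rw [e', sub_le_self_iff]
    exact star_mul_self_nonneg _
  have h2 := CStarAlgebra.norm_le_norm_of_nonneg_of_le (ha := star_mul_self_nonneg _) h1
  rw [CStarRing.norm_star_mul_self, CStarRing.norm_star_mul_self] at h2
  have h3 : ‖w - p * w‖ * ‖w - p * w‖ ≤ ‖w‖ * ‖w‖ := h2
  nlinarith [norm_nonneg (w - p * w), norm_nonneg w]

lemma eq_zero_of_growth {a C : ℝ} (ha : 0 ≤ a)
    (h : ∀ t : ℝ, 0 ≤ t → ((1 + t) * a) ^ 2 ≤ C ^ 2 + t ^ 2 * a ^ 2) : a = 0 := by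
  by_contra hne
  have hpos : 0 < a := lt_of_le_of_ne ha (Ne.symm hne)
  have ha2 : 0 < a ^ 2 := by positivity
  have := h (C ^ 2 / a ^ 2) (by positivity)
  have e : ((1 + C ^ 2 / a ^ 2) * a) ^ 2 = a ^ 2 + 2 * C ^ 2 + (C ^ 2 / a ^ 2) ^ 2 * a ^ 2 := by
    field_simp
    ring
  rw [e] at this
  nlinarith [sq_nonneg C]

end basic

section limits

variable {X : Type u} [NormedAddCommGroup X] [NormedSpace ℝ X]
variable {B : Type v} [NonUnitalCStarAlgebra B] {A : NonUnitalStarSubalgebra ℝ B}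
variable {Φ : (X →L[ℝ] ℝ) ≃ₗᵢ[ℝ] A}

lemma WLim.norm_sq_le {ι : Type*} {U : Filter ι} [U.NeBot] {x : ι → A} {y : A}
    (h : WLim Φ U x y) {C : ℝ} (hC : ∀ᶠ i in U, ‖x i‖ ^ 2 ≤ C) : ‖y‖ ^ 2 ≤ C := by
  have hC0 : 0 ≤ C := by
    obtain ⟨i, hi⟩ := hC.exists
    exact (sq_nonneg _).trans hi
  have h1 : ‖y‖ ≤ Real.sqrt C := h.norm_le (hC.mono fun i hi => Real.le_sqrt_of_sq_le hi)
  calc ‖y‖ ^ 2 ≤ (Real.sqrt C) ^ 2 := by gcongr
    _ = C := Real.sq_sqrt hC0

/-- `{x | p x = x}` is closed -/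
lemma uclosed_proj_fix {p : A} (hp : IsStarProjection p) : UClosed Φ {x : A | p * x = x} := by
  intro ι U x y C hC hN hx
  have hps : star p = p := hp.isSelfAdjoint.star_eq
  have hpp : p * p = p := hp.isIdempotentElem.eq
  set z : A := y - p * y with hz
  have hpz : p * z = 0 := by rw [hz, mul_sub, ← mul_assoc, hpp, sub_self]
  have key : ‖z‖ = 0 := by
    refine eq_zero_of_growth (C := C) (norm_nonneg z) (fun t ht => ?_)
    have h1 : ‖y + t • z‖ ^ 2 ≤ C ^ 2 + t ^ 2 * ‖z‖ ^ 2 := by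
      refine (hx.add (wlim_const _ (t • z))).norm_sq_le ?_
      filter_upwards [hC, hN] with i hi hi'
      have hi'' : p * x i = x i := hi'
      have h2 : star (x i) * (t • z) = 0 := by
        rw [← hi'', star_mul, hps, mul_assoc, mul_smul_comm, hpz, smul_zero, mul_zero]
      calc ‖x i + t • z‖ ^ 2 ≤ ‖x i‖ ^ 2 + ‖t • z‖ ^ 2 := sa_norm_add_sq_le h2
        _ ≤ C ^ 2 + t ^ 2 * ‖z‖ ^ 2 := by
            rw [norm_smul, mul_pow, Real.norm_eq_abs, sq_abs]
            gcongr
    have h2 : (1 + t) * ‖z‖ ≤ ‖y + t • z‖ := by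
      have e : (y + t • z) - p * (y + t • z) = (1 + t) • z := by
        rw [mul_add, mul_smul_comm, hpz, smul_zero, add_zero, add_smul, one_smul, hz]
        abel
      have h3 := sa_norm_sub_proj_mul_le hp (y + t • z)
      rw [e, norm_smul, Real.norm_of_nonneg (by linarith)] at h3
      exact h3
    calc ((1 + t) * ‖z‖) ^ 2 ≤ ‖y + t • z‖ ^ 2 := by gcongr
      _ ≤ _ := h1
  have hz0 : z = 0 := norm_eq_zero.mp key
  show p * y = y
  exact (sub_eq_zero.mp (hz ▸ hz0)).symm

/-- `{x | p x = 0}` is closed -/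
lemma uclosed_proj_zero {p : A} (hp : IsStarProjection p) : UClosed Φ {x : A | p * x = 0} := by
  intro ι U x y C hC hN hx
  have hps : star p = p := hp.isSelfAdjoint.star_eq
  have hpp : p * p = p := hp.isIdempotentElem.eq
  set z : A := p * y with hz
  have hpz : p * z = z := by rw [hz, ← mul_assoc, hpp]
  have key : ‖z‖ = 0 := by
    refine eq_zero_of_growth (C := C) (norm_nonneg z) (fun t ht => ?_)
    have h1 : ‖y + t • z‖ ^ 2 ≤ C ^ 2 + t ^ 2 * ‖z‖ ^ 2 := by
      refine (hx.add (wlim_const _ (t • z))).norm_sq_le ?_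
      filter_upwards [hC, hN] with i hi hi'
      have hi'' : p * x i = 0 := hi'
      have h2 : star (x i) * (t • z) = 0 := by
        have h3 : star (x i) * p = 0 := by
          have := congrArg star hi''
          rwa [star_mul, hps, star_zero] at this
        rw [mul_smul_comm, hz, ← mul_assoc, h3, zero_mul, smul_zero]
      calc ‖x i + t • z‖ ^ 2 ≤ ‖x i‖ ^ 2 + ‖t • z‖ ^ 2 := sa_norm_add_sq_le h2
        _ ≤ C ^ 2 + t ^ 2 * ‖z‖ ^ 2 := by
            rw [norm_smul, mul_pow, Real.norm_eq_abs, sq_abs]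
            gcongr
    have h2 : (1 + t) * ‖z‖ ≤ ‖y + t • z‖ := by
      have e : p * (y + t • z) = (1 + t) • z := by
        rw [mul_add, mul_smul_comm, hpz, ← hz, add_smul, one_smul]
      have h3 := sa_norm_proj_mul_le hp (y + t • z)
      rw [e, norm_smul, Real.norm_of_nonneg (by linarith)] at h3
      exact h3
    calc ((1 + t) * ‖z‖) ^ 2 ≤ ‖y + t • z‖ ^ 2 := by gcongr
      _ ≤ _ := h1
  exact norm_eq_zero.mp key

/-- left multiplication by a projection is bounded-weak-star continuous -/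
lemma ucont_proj_mul {p : A} (hp : IsStarProjection p) : UCont Φ (fun x : A => p * x) := by
  intro ι U x y C hC hx
  have hpp : p * p = p := hp.isIdempotentElem.eq
  have hC' : ∀ᶠ i in (U : Filter ι), ‖p * x i‖ ≤ C :=
    hC.mono fun i hi => (sa_norm_proj_mul_le hp _).trans hi
  obtain ⟨z, hz⟩ := exists_wlim Φ U (fun i => p * x i) hC'
  have h1 : p * z = z := uclosed_proj_fix hp ι U _ z C hC'
    (Eventually.of_forall fun i => by
      show p * (p * x i) = p * x i
      rw [← mul_assoc, hpp]) hz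
  have h2 : p * (y - z) = 0 := uclosed_proj_zero hp ι U _ (y - z) C
    (hC.mono fun i hi => (sa_norm_sub_proj_mul_le hp _).trans hi)
    (Eventually.of_forall fun i => by
      show p * (x i - p * x i) = 0
      rw [mul_sub, ← mul_assoc, hpp, sub_self]) (hx.sub hz)
  have h3 : p * y = z := by
    rw [mul_sub, h1, sub_eq_zero] at h2; exact h2
  show WLim Φ (U : Filter ι) (fun i => p * x i) (p * y)
  rw [h3]
  exact hz

/-- the star operation as an isometry -/
noncomputable def starIso : A ≃ₗᵢ[ℝ] A where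
  toFun := star
  invFun := star
  left_inv := star_star
  right_inv := star_star
  map_add' := star_add
  map_smul' := fun t x => by simp
  norm_map' := sa_norm_star

lemma wlim_star_iff {ι : Type*} {U : Filter ι} {x : ι → A} {y : A} :
    WLim (Φ.trans starIso) U x y ↔ WLim Φ U (fun i => star (x i)) (star y) := Iff.rfl

lemma ucont_mul_proj {p : A} (hp : IsStarProjection p) : UCont Φ (fun x : A => x * p) := by
  intro ι U x y C hC hx
  have hps : star p = p := hp.isSelfAdjoint.star_eq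
  have h1 : WLim (Φ.trans starIso) (U : Filter ι) (fun i => star (x i)) (star y) := by
    rw [wlim_star_iff]
    simpa using hx
  have h2 := ucont_proj_mul (Φ := Φ.trans starIso) hp ι U _ _ C
    (hC.mono fun i hi => by rw [sa_norm_star]; exact hi) h1
  rw [wlim_star_iff] at h2
  simpa [hps] using h2

lemma uclosed_mul_proj_zero {p : A} (hp : IsStarProjection p) :
    UClosed Φ {x : A | x * p = 0} := by
  intro ι U x y C hC hN hx
  have h1 := ucont_mul_proj (Φ := Φ) hp ι U x y C hC hx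
  have h2 : WLim Φ (U : Filter ι) (fun _ => (0 : A)) (y * p) :=
    h1.congr' (hN.mono fun i hi => hi)
  exact (h2.unique (wlim_const _ 0))

/-- right annihilators are closed -/
lemma uclosed_annihilator {k : A} (hk : star k = k)
    (hk0 : ∀ t ∈ quasispectrum ℝ (k : B), 0 ≤ t) (hA : IsClosed (A : Set B)) :
    UClosed Φ {x : A | x * k = 0} := by
  intro ι U x y C hC hN hx
  have hksa : IsSelfAdjoint (k : B) := congrArg Subtype.val hk
  let g : ℕ → A := fun n => ⟨cutEl (k : B) n, cfcₙ_mem (𝕜' := ℝ) (hs := hA) _ k.2⟩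
  have hgs : ∀ n, star (g n) = g n := fun n => Subtype.ext (star_cutEl _ n)
  have hgn : ∀ n, ‖g n‖ ≤ 1 := fun n => norm_cutEl_le _ n
  have hgg : ∀ n m, 2 * (m + 1) ≤ n + 1 → g n * g m = g m := fun n m h =>
    Subtype.ext (cutEl_mul_cutEl _ h)
  let a : ℕ → ℝ := fun n => ‖y * g n‖
  have ha_bdd : BddAbove (Set.range a) := by
    refine ⟨‖y‖, ?_⟩
    rintro _ ⟨n, rfl⟩
    calc ‖y * g n‖ ≤ ‖y‖ * ‖g n‖ := norm_mul_le _ _
      _ ≤ ‖y‖ * 1 := by gcongr; exact hgn n
      _ = ‖y‖ := mul_one _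
  set M : ℝ := ⨆ n, a n with hM
  have haM : ∀ n, a n ≤ M := fun n => le_ciSup ha_bdd n
  have hM0 : 0 ≤ M := (norm_nonneg _).trans (haM 0)
  have step : ∀ (t : ℝ), 0 ≤ t → ∀ n, ((1 + t) * a n) ^ 2 ≤ C ^ 2 + t ^ 2 * M ^ 2 := by
    intro t ht m
    set n : ℕ := 2 * m + 1 with hn
    have hnm : 2 * (m + 1) ≤ n + 1 := by omega
    have h1 : ‖y + t • (y * g n)‖ ^ 2 ≤ C ^ 2 + t ^ 2 * M ^ 2 := by
      refine (hx.add (wlim_const _ (t • (y * g n)))).norm_sq_le ?_
      filter_upwards [hC, hN] with i hi hi'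
      have hi'' : (x i : B) * k = 0 := congrArg Subtype.val hi'
      have h2 : x i * g n = 0 := Subtype.ext (mul_cutEl_eq_zero hksa hi'' n)
      have h3 : x i * star (t • (y * g n)) = 0 := by
        rw [star_smul, star_mul, hgs, mul_smul_comm, ← mul_assoc, h2, zero_mul, smul_zero]
      calc ‖x i + t • (y * g n)‖ ^ 2 ≤ ‖x i‖ ^ 2 + ‖t • (y * g n)‖ ^ 2 := sa_norm_add_sq_le' h3
        _ ≤ C ^ 2 + t ^ 2 * M ^ 2 := by
            rw [norm_smul, mul_pow, Real.norm_eq_abs, sq_abs]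
            have := haM n
            gcongr
    have h2 : (1 + t) * a m ≤ ‖y + t • (y * g n)‖ := by
      have e : (y + t • (y * g n)) * g m = (1 + t) • (y * g m) := by
        rw [add_mul, smul_mul_assoc, mul_assoc, hgg n m hnm, add_smul, one_smul]
      have h3 : ‖(y + t • (y * g n)) * g m‖ ≤ ‖y + t • (y * g n)‖ := by
        calc ‖(y + t • (y * g n)) * g m‖ ≤ ‖y + t • (y * g n)‖ * ‖g m‖ := norm_mul_le _ _
          _ ≤ ‖y + t • (y * g n)‖ * 1 := by gcongr; exact hgn m
          _ = _ := mul_one _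
      rw [e, norm_smul, Real.norm_of_nonneg (by linarith)] at h3
      exact h3
    have ham : 0 ≤ a m := norm_nonneg _
    calc ((1 + t) * a m) ^ 2 ≤ ‖y + t • (y * g n)‖ ^ 2 := by gcongr
      _ ≤ _ := h1
  have hMz : M = 0 := by
    refine eq_zero_of_growth (C := C) hM0 (fun t ht => ?_)
    have h1 : M ≤ Real.sqrt (C ^ 2 + t ^ 2 * M ^ 2) / (1 + t) := by
      refine ciSup_le (fun n => ?_)
      rw [le_div_iff₀ (by linarith), mul_comm]
      exact Real.le_sqrt_of_sq_le (step t ht n)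
    rw [le_div_iff₀ (by linarith), mul_comm] at h1
    have h2 : 0 ≤ C ^ 2 + t ^ 2 * M ^ 2 := by positivity
    calc ((1 + t) * M) ^ 2 ≤ (Real.sqrt (C ^ 2 + t ^ 2 * M ^ 2)) ^ 2 := by gcongr
      _ = _ := Real.sq_sqrt h2
  have hz : ∀ n, (y : B) * cutEl (k : B) n = 0 := by
    intro n
    have h1 : ‖y * g n‖ = 0 := le_antisymm (hMz ▸ haM n) (norm_nonneg _)
    exact congrArg Subtype.val (norm_eq_zero.mp h1)
  exact Subtype.ext (mul_eq_zero_of_cutEl hksa hk0 hz)

/-- the first order condition at an isometry `u` is closed -/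
lemma uclosed_re {P u : A} (hP : IsStarProjection P) (hPr : ∀ x : A, x * P = x)
    (hu : star u * u = P) : UClosed Φ {x : A | star u * x + star x * u = 0} := by
  intro ι U x y C hC hN hx
  refine sa_re_eq_zero hP hu (hPr u) (hPr y) (K := C ^ 2) (fun t => ?_)
  refine ((wlim_const _ u).add (hx.smul t)).norm_sq_le ?_
  filter_upwards [hC, hN] with i hi hi'
  have hi'' : star u * x i + star (x i) * u = 0 := hi'
  have e : star (u + t • x i) * (u + t • x i) = P + t ^ 2 • (star (x i) * x i) := by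
    rw [star_add, star_smul, add_mul, mul_add, mul_add, hu]
    simp only [star_trivial, smul_mul_assoc, mul_smul_comm, smul_smul, pow_two]
    have : P + t • (star u * x i) + (t • (star (x i) * u) + (t * t) • (star (x i) * x i))
        = P + t • (star u * x i + star (x i) * u) + (t * t) • (star (x i) * x i) := by
      rw [smul_add]; abel
    rw [this, hi'', smul_zero, add_zero]
  calc ‖u + t • x i‖ ^ 2 = ‖star (u + t • x i) * (u + t • x i)‖ := by
        rw [sa_norm_star_mul_self, pow_two]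
    _ = ‖P + t ^ 2 • (star (x i) * x i)‖ := by rw [e]
    _ ≤ ‖P‖ + ‖t ^ 2 • (star (x i) * x i)‖ := norm_add_le _ _
    _ ≤ 1 + t ^ 2 * C ^ 2 := by
        rw [norm_smul, sa_norm_star_mul_self, Real.norm_of_nonneg (sq_nonneg t)]
        have := sa_norm_proj_le hP
        have h0 := norm_nonneg (x i)
        have : ‖x i‖ * ‖x i‖ ≤ C ^ 2 := by nlinarith
        gcongr

end limits

end Pool.Agent.Work.MP_64e6b8_an
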